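import Mathlib

set_option autoImplicit false

/-!
Exceptional sets of Hausdorff dimension less than one from mean square bounds with a power saving and Lipschitz bounds
with a power loss.
-/

namespace Pool.Agent.U587.DX

open Filter Set MeasureTheory Finset
open scoped ENNReal NNReal Topology

/-- limsup sets of finite unions of short intervals -/
lemma hnull_limsup {s : ℝ} (hs0 : 0 < s) (I : ℕ → Finset ℕ) (c : ℕ → ℕ → ℝ) (r : ℕ → ℝ) (hr0 : ∀ j, 0 ≤ r j)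
    (hra : Antitone r) (hrt : Tendsto r atTop (𝓝 0)) (hs : Summable fun j => ((I j).card : ℝ) * (r j) ^ s) :
    μH[s] {a : ℝ | ∃ᶠ j in atTop, ∃ i ∈ I j, a ∈ Set.Icc (c j i) (c j i + r j)} = 0 := by
  classical
  have h1 := tendsto_sum_nat_add (fun j => ((I j).card : ℝ) * (r j) ^ s)
  have hd : ∀ j i, Metric.ediam (Set.Icc (c j i) (c j i + r j)) = ENNReal.ofReal (r j) := by
    intro j i
    rw [Real.ediam_Icc]
    congr 1
    ring
  have h4 := Measure.hausdorffMeasure_le_liminf_tsum s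
    {a : ℝ | ∃ᶠ j in atTop, ∃ i ∈ I j, a ∈ Set.Icc (c j i) (c j i + r j)} (l := atTop)
    (fun n : ℕ => ENNReal.ofReal (r n)) (by
      rw [← ENNReal.ofReal_zero]
      exact ENNReal.tendsto_ofReal hrt)
    (fun n (p : Σ k : ℕ, I (k + n)) => Set.Icc (c (p.1 + n) p.2) (c (p.1 + n) p.2 + r (p.1 + n)))
    (Eventually.of_forall fun n p => by
      rw [hd]
      exact ENNReal.ofReal_le_ofReal (hra (Nat.le_add_left _ _)))
    (Eventually.of_forall fun n => by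
      intro a ha
      obtain ⟨j, hj, i, hi, hai⟩ := (frequently_atTop.1 ha) n
      obtain ⟨k, rfl⟩ : ∃ k, j = k + n := ⟨j - n, by omega⟩
      rw [mem_iUnion]
      exact ⟨⟨k, ⟨i, hi⟩⟩, hai⟩)
  refine le_antisymm (h4.trans ?_) (zero_le)
  have h5 : ∀ n : ℕ, ∑' p : Σ k : ℕ, I (k + n),
      Metric.ediam (Set.Icc (c (p.1 + n) p.2) (c (p.1 + n) p.2 + r (p.1 + n))) ^ s =
      ENNReal.ofReal (∑' k, (((I (k + n)).card : ℝ) * (r (k + n)) ^ s)) := by
    intro n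
    rw [ENNReal.tsum_sigma']
    rw [ENNReal.ofReal_tsum_of_nonneg (fun k => mul_nonneg (Nat.cast_nonneg _) (Real.rpow_nonneg (hr0 _) _))
      ((summable_nat_add_iff n).2 hs)]
    refine tsum_congr fun k => ?_
    simp only [hd]
    rw [ENNReal.tsum_const, ENNReal.ofReal_mul (Nat.cast_nonneg _), ENNReal.ofReal_natCast,
      ENNReal.ofReal_rpow_of_nonneg (hr0 _) hs0.le]
    simp
  simp only [h5]
  have h6 : Tendsto (fun n : ℕ => ENNReal.ofReal (∑' k, (((I (k + n)).card : ℝ) * (r (k + n)) ^ s))) atTop (𝓝 0) := by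
    rw [← ENNReal.ofReal_zero]
    exact ENNReal.tendsto_ofReal h1
  rw [h6.liminf_eq]

lemma grid_point {a : ℝ} (ha : a ∈ Set.Icc (1 : ℝ) 2) {K : ℕ} (hK : 1 ≤ K) :
    ∃ i < K, a ∈ Set.Icc (1 + i * (1 / (K : ℝ))) (1 + i * (1 / (K : ℝ)) + 1 / K) := by
  have hK0 : (0 : ℝ) < K := by exact_mod_cast hK
  obtain ⟨y, hy⟩ : ∃ y, y = (a - 1) * K := ⟨_, rfl⟩
  have hy0 : 0 ≤ y := by
    rw [hy]
    have := ha.1
    have : 0 ≤ a - 1 := by linarith
    positivity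
  have hyK : y ≤ K := by
    rw [hy]
    have := ha.2
    nlinarith
  have hay : a = 1 + y * (1 / K) := by
    rw [hy]
    field_simp
    ring
  have hAK : (0 : ℝ) < 1 / K := by positivity
  rcases Nat.lt_or_ge ⌊y⌋₊ K with h | h
  · refine ⟨⌊y⌋₊, h, ?_, ?_⟩
    · have h1 := Nat.floor_le hy0
      have : (⌊y⌋₊ : ℝ) * (1 / K) ≤ y * (1 / K) := by gcongr
      linarith
    · have h1 := (Nat.lt_floor_add_one y).le
      have : y * (1 / K) ≤ (⌊y⌋₊ + 1 : ℝ) * (1 / K) := by gcongr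
      linarith
  · have h1 : (K : ℝ) ≤ y := by
      have h2 := Nat.floor_le hy0
      have h3 : (K : ℝ) ≤ (⌊y⌋₊ : ℝ) := by exact_mod_cast h
      linarith
    have h2 : y = K := le_antisymm hyK h1
    refine ⟨K - 1, by omega, ?_⟩
    rw [Nat.cast_sub hK, hay, h2]
    push_cast
    constructor <;> nlinarith

/-- the number of grid intervals on which a Lipschitz function with small integral can be large -/
lemma count {Φ : ℝ → ℝ} {Λ ε θ : ℝ} (hΦ0 : ∀ a, 0 ≤ Φ a) (hΛ0 : 0 ≤ Λ)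
    (hlip : ∀ a ∈ Set.Icc (1 : ℝ) 2, ∀ b ∈ Set.Icc (1 : ℝ) 2, |Φ a - Φ b| ≤ Λ * |a - b|)
    (hθ : 0 < θ) (hint : ∫ a in (1 : ℝ)..2, Φ a ≤ ε) {K : ℕ} (hK : 1 ≤ K) (hK2 : 2 * Λ / θ ≤ K) :
    ∃ I : Finset ℕ, (I.card : ℝ) ≤ 2 * ε * K / θ ∧
      ∀ a ∈ Set.Icc (1 : ℝ) 2, θ < Φ a → ∃ i ∈ I, a ∈ Set.Icc (1 + i * (1 / (K : ℝ))) (1 + i * (1 / (K : ℝ)) + 1 / K) := by
  classical
  have hK0 : (0 : ℝ) < K := by exact_mod_cast hK
  have hAK : (0 : ℝ) < 1 / K := by positivity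
  refine ⟨(Finset.range K).filter (fun i : ℕ => ∃ a ∈ Set.Icc (1 + i * (1 / (K : ℝ))) (1 + i * (1 / (K : ℝ)) + 1 / K),
    θ < Φ a ∧ a ∈ Set.Icc (1 : ℝ) 2), ?_, ?_⟩
  · set I := (Finset.range K).filter (fun i : ℕ => ∃ a ∈ Set.Icc (1 + i * (1 / (K : ℝ)))
      (1 + i * (1 / (K : ℝ)) + 1 / K), θ < Φ a ∧ a ∈ Set.Icc (1 : ℝ) 2) with hI
    have hcont : ContinuousOn Φ (Set.Icc 1 2) := by
      have : LipschitzOnWith (Real.toNNReal Λ) Φ (Set.Icc 1 2) := by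
        apply LipschitzOnWith.of_dist_le_mul
        intro a ha b hb
        rw [Real.dist_eq, Real.dist_eq, Real.coe_toNNReal _ hΛ0]
        exact hlip a ha b hb
      exact this.continuousOn
    have hin : IntegrableOn Φ (Set.Icc 1 2) := hcont.integrableOn_compact isCompact_Icc
    have hpt : ∀ i ∈ Finset.range K, Set.Ioc (1 + i * (1 / (K : ℝ))) (1 + (i + 1 : ℕ) * (1 / (K : ℝ))) ⊆
        Set.Icc (1 : ℝ) 2 := by
      intro i hi b hb
      rw [Finset.mem_range] at hi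
      have hiK : ((i + 1 : ℕ) : ℝ) ≤ K := by exact_mod_cast hi
      have h1 : ((i + 1 : ℕ) : ℝ) * (1 / K) ≤ K * (1 / K) := by gcongr
      have h2 : (K : ℝ) * (1 / K) = 1 := by field_simp
      have h3 : 0 ≤ (i : ℝ) * (1 / K) := by positivity
      constructor
      · linarith [hb.1]
      · linarith [hb.2]
    have hmono : Monotone (fun i : ℕ => 1 + i * (1 / (K : ℝ))) := by
      intro i j hij
      have : (i : ℝ) ≤ j := by exact_mod_cast hij
      simp only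
      gcongr
    have hsum : ∀ k : ℕ, k ≤ K → ∑ i ∈ Finset.range k, ∫ a in Set.Ioc (1 + i * (1 / (K : ℝ)))
        (1 + (i + 1 : ℕ) * (1 / (K : ℝ))), Φ a = ∫ a in Set.Ioc (1 : ℝ) (1 + k * (1 / (K : ℝ))), Φ a := by
      intro k
      induction k with
      | zero => intro _; simp
      | succ k ih =>
        intro hk
        rw [Finset.sum_range_succ, ih (by omega), ← setIntegral_union]
        · rw [Set.Ioc_union_Ioc_eq_Ioc]
          · have := hmono (Nat.zero_le k)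
            simpa using this
          · exact hmono (Nat.le_succ k)
        · exact Set.Ioc_disjoint_Ioc_of_le le_rfl
        · exact measurableSet_Ioc
        · refine hin.mono_set ?_
          intro b hb
          have hiK : ((k + 1 : ℕ) : ℝ) ≤ K := by exact_mod_cast hk
          have h1 : (k : ℝ) * (1 / K) ≤ K * (1 / K) := by
            have : (k : ℝ) ≤ K := by push_cast at hiK; linarith
            gcongr
          have h2 : (K : ℝ) * (1 / K) = 1 := by field_simp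
          exact ⟨hb.1.le, by linarith [hb.2]⟩
        · exact hin.mono_set (hpt k (Finset.mem_range.2 (by omega)))
    have htot : ∑ i ∈ Finset.range K, ∫ a in Set.Ioc (1 + i * (1 / (K : ℝ)))
        (1 + (i + 1 : ℕ) * (1 / (K : ℝ))), Φ a = ∫ a in (1 : ℝ)..2, Φ a := by
      rw [hsum K le_rfl, intervalIntegral.integral_of_le (by norm_num)]
      congr 3
      field_simp
      norm_num
    have hlow : ∀ i ∈ I, θ / 2 * (1 / K) ≤ ∫ a in Set.Ioc (1 + i * (1 / (K : ℝ)))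
        (1 + (i + 1 : ℕ) * (1 / (K : ℝ))), Φ a := by
      intro i hi
      rw [hI, Finset.mem_filter] at hi
      obtain ⟨hiK, a, ha, haθ, ha2⟩ := hi
      have e1 : 1 + ((i + 1 : ℕ) : ℝ) * (1 / (K : ℝ)) = 1 + i * (1 / (K : ℝ)) + 1 / K := by push_cast; ring
      have h1 : ∫ b in Set.Ioc (1 + i * (1 / (K : ℝ))) (1 + (i + 1 : ℕ) * (1 / (K : ℝ))), (θ / 2 : ℝ) =
          θ / 2 * (1 / K) := by
        rw [setIntegral_const, smul_eq_mul, measureReal_def, Real.volume_Ioc, ENNReal.toReal_ofReal]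
        · push_cast; ring
        · push_cast
          have : (i : ℝ) * (1 / K) ≤ ((i : ℝ) + 1) * (1 / K) := by gcongr; linarith
          linarith
      rw [← h1]
      refine setIntegral_mono_on ?_ (hin.mono_set (hpt i hiK)) measurableSet_Ioc ?_
      · exact integrableOn_const (by simp)
      · intro b hb
        have hb2 := hpt i hiK hb
        have h3 := hlip a ha2 b hb2
        rw [e1] at hb
        have h4 : |a - b| ≤ 1 / K := by
          rw [abs_le]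
          constructor
          · linarith [ha.1, hb.2]
          · linarith [ha.2, hb.1]
        have h5 : Λ * |a - b| ≤ θ / 2 := by
          have h6 : Λ * |a - b| ≤ Λ * (1 / K) := by gcongr
          have h7 : Λ * (1 / K) ≤ θ / 2 := by
            rw [mul_one_div, div_le_iff₀ hK0]
            rw [div_le_iff₀ hθ] at hK2
            linarith
          linarith
        have h6 := (abs_le.1 (h3.trans h5)).2
        linarith
    have h8 : (I.card : ℝ) * (θ / 2 * (1 / K)) ≤ ε := by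
      calc (I.card : ℝ) * (θ / 2 * (1 / K)) = ∑ _i ∈ I, θ / 2 * (1 / (K : ℝ)) := by
            rw [Finset.sum_const, nsmul_eq_mul]
        _ ≤ ∑ i ∈ I, ∫ a in Set.Ioc (1 + i * (1 / (K : ℝ))) (1 + (i + 1 : ℕ) * (1 / (K : ℝ))), Φ a :=
            Finset.sum_le_sum hlow
        _ ≤ ∑ i ∈ Finset.range K, ∫ a in Set.Ioc (1 + i * (1 / (K : ℝ))) (1 + (i + 1 : ℕ) * (1 / (K : ℝ))), Φ a := by
            refine Finset.sum_le_sum_of_subset_of_nonneg (Finset.filter_subset _ _) fun i _ _ => ?_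
            exact setIntegral_nonneg measurableSet_Ioc fun a _ => hΦ0 a
        _ ≤ ε := by rw [htot]; exact hint
    rw [le_div_iff₀ hθ]
    have h9 : (I.card : ℝ) * (θ / 2 * (1 / K)) * (2 * K) ≤ ε * (2 * K) := by gcongr
    have h10 : (I.card : ℝ) * (θ / 2 * (1 / K)) * (2 * K) = I.card * θ := by field_simp
    linarith
  · intro a ha hθa
    obtain ⟨i, hi, hai⟩ := grid_point ha hK
    exact ⟨i, Finset.mem_filter.2 ⟨Finset.mem_range.2 hi, a, hai, hθa, ha⟩, hai⟩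

/-- power saving `p`, power loss `w`: dimension at most `1 - p / w` -/
theorem dimH_of_power {p w : ℕ} (hw : 0 < w) (hpw : p < w) {E : Set ℝ}
    (h : ∀ q : ℕ, 1 ≤ q → ∃ (Φ : ℕ → ℝ → ℝ) (Λ C : ℝ), 0 ≤ Λ ∧ 0 ≤ C ∧ (∀ l a, 0 ≤ Φ l a) ∧
      (∀ l, ∀ a ∈ Set.Icc (1 : ℝ) 2, ∀ b ∈ Set.Icc (1 : ℝ) 2,
        |Φ l a - Φ l b| ≤ Λ * ((l : ℝ) + 1) ^ (w * q) * |a - b|) ∧
      (∀ᶠ l : ℕ in atTop, ∫ a in (1 : ℝ)..2, Φ l a ≤ C / ((l : ℝ) + 1) ^ (p * q)) ∧
      ∀ a ∈ E, a ∈ Set.Icc (1 : ℝ) 2 ∧ ∃ᶠ l : ℕ in atTop, 1 / ((l : ℝ) + 1) ^ 2 < Φ l a) :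
    dimH E ≤ ENNReal.ofReal (1 - (p : ℝ) / w) := by
  have hw0 : (0 : ℝ) < w := by exact_mod_cast hw
  have hpw0 : (p : ℝ) < w := by exact_mod_cast hpw
  have hs0 : 0 < 1 - (p : ℝ) / w := by
    rw [sub_pos, div_lt_one hw0]
    exact hpw0
  refine le_of_forall_gt_imp_ge_of_dense fun t ht => ?_
  obtain ⟨s, hs1, hs2⟩ := ENNReal.lt_iff_exists_nnreal_btwn.1 ht
  refine le_trans ?_ hs2.le
  have hs1' : 1 - (p : ℝ) / w < s := by
    rw [← ENNReal.ofReal_coe_nnreal, ENNReal.ofReal_lt_ofReal_iff_of_nonneg hs0.le] at hs1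
    exact hs1
  have hsp : (0 : ℝ) < s := hs0.trans hs1'
  -- choice of q
  obtain ⟨η, hη⟩ : ∃ η : ℝ, η = (s : ℝ) - (1 - (p : ℝ) / w) := ⟨_, rfl⟩
  have hη0 : 0 < η := by rw [hη]; linarith
  obtain ⟨q, hq⟩ := exists_nat_gt ((4 + 2 * (p : ℝ) / w) / (η * w))
  have hq1 : 1 ≤ q := by
    have h1 : (0 : ℝ) < q := lt_of_le_of_lt (by positivity) hq
    exact_mod_cast h1
  obtain ⟨Φ, Λ, C, hΛ, hC, hΦ0, hlip, hint, hE⟩ := h q hq1
  obtain ⟨K, hK⟩ : ∃ K : ℕ → ℕ, ∀ l, K l = ⌈2 * Λ + 1⌉₊ * (l + 1) ^ (w * q + 2) := ⟨_, fun l => rfl⟩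
  have hM1 : 1 ≤ ⌈2 * Λ + 1⌉₊ := by
    rw [Nat.one_le_ceil_iff]
    linarith
  have hM2 : 2 * Λ + 1 ≤ (⌈2 * Λ + 1⌉₊ : ℝ) := Nat.le_ceil _
  have hK1 : ∀ l, 1 ≤ K l := fun l => by
    rw [hK]
    exact Nat.one_le_iff_ne_zero.2 (Nat.mul_ne_zero (by omega) (by positivity))
  have hev : ∀ᶠ l : ℕ in atTop, ∃ I : Finset ℕ, (I.card : ℝ) ≤ 2 * (C / ((l : ℝ) + 1) ^ (p * q)) * K l /
      (1 / ((l : ℝ) + 1) ^ 2) ∧ ∀ a ∈ Set.Icc (1 : ℝ) 2, 1 / ((l : ℝ) + 1) ^ 2 < Φ l a →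
        ∃ i ∈ I, a ∈ Set.Icc (1 + i * (1 / (K l : ℝ))) (1 + i * (1 / (K l : ℝ)) + 1 / K l) := by
    filter_upwards [hint] with l hl
    have hl0 : (0 : ℝ) < (l : ℝ) + 1 := by positivity
    refine count (hΦ0 l) (Λ := Λ * ((l : ℝ) + 1) ^ (w * q)) (by positivity) (hlip l) (by positivity) hl (hK1 l) ?_
    rw [hK]
    push_cast
    rw [div_le_iff₀ (by positivity), pow_add]
    have h2 : (0 : ℝ) < ((l : ℝ) + 1) ^ (w * q) := by positivity
    calc 2 * (Λ * ((l : ℝ) + 1) ^ (w * q)) = (2 * Λ) * ((l : ℝ) + 1) ^ (w * q) := by ring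
      _ ≤ (⌈2 * Λ + 1⌉₊ : ℝ) * ((l : ℝ) + 1) ^ (w * q) := by
          gcongr
          linarith
      _ = (⌈2 * Λ + 1⌉₊ : ℝ) * (((l : ℝ) + 1) ^ (w * q) * ((l : ℝ) + 1) ^ 2) * (1 / ((l : ℝ) + 1) ^ 2) := by
          field_simp
  obtain ⟨l0, hl0⟩ := eventually_atTop.1 hev
  classical
  obtain ⟨I, hI⟩ : ∃ I : ℕ → Finset ℕ, ∀ l, l0 ≤ l →
      ((I l).card : ℝ) ≤ 2 * (C / ((l : ℝ) + 1) ^ (p * q)) * K l / (1 / ((l : ℝ) + 1) ^ 2) ∧
      ∀ a ∈ Set.Icc (1 : ℝ) 2, 1 / ((l : ℝ) + 1) ^ 2 < Φ l a →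
        ∃ i ∈ I l, a ∈ Set.Icc (1 + i * (1 / (K l : ℝ))) (1 + i * (1 / (K l : ℝ)) + 1 / K l) := by
    refine ⟨fun l => if hl : l0 ≤ l then (hl0 l hl).choose else ∅, fun l hl => ?_⟩
    beta_reduce
    rw [dif_pos hl]
    exact (hl0 l hl).choose_spec
  obtain ⟨M, hM⟩ : ∃ M : ℝ, M = (⌈2 * Λ + 1⌉₊ : ℝ) := ⟨_, rfl⟩
  have hM0 : 0 < M := by
    rw [hM]
    exact_mod_cast hM1
  have hKr : ∀ l, (K l : ℝ) = M * ((l : ℝ) + 1) ^ (w * q + 2) := by
    intro l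
    rw [hK, hM]
    push_cast
    rfl
  have hKpos : ∀ l, (0 : ℝ) < K l := fun l => by exact_mod_cast hK1 l
  have hra : Antitone fun l : ℕ => 1 / (K l : ℝ) := by
    intro l l' hll
    have : (l : ℝ) ≤ l' := by exact_mod_cast hll
    simp only [hKr]
    gcongr
  have hrt : Tendsto (fun l : ℕ => 1 / (K l : ℝ)) atTop (𝓝 0) := by
    refine squeeze_zero (fun l => by positivity) (fun l => ?_) (tendsto_one_div_add_atTop_nhds_zero_nat (𝕜 := ℝ))
    have hKl : ((l : ℝ) + 1) ≤ K l := by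
      have h1 : l + 1 ≤ K l := by
        rw [hK]
        calc l + 1 = 1 * (l + 1) ^ 1 := by ring
          _ ≤ ⌈2 * Λ + 1⌉₊ * (l + 1) ^ (w * q + 2) :=
            Nat.mul_le_mul hM1 (Nat.pow_le_pow_right (by omega) (by omega))
      exact_mod_cast h1
    exact one_div_le_one_div_of_le (by positivity) hKl
  have hsum : Summable fun l => ((I l).card : ℝ) * (1 / (K l : ℝ)) ^ (s : ℝ) := by
    have h1 : Summable fun l : ℕ => (2 * C * M ^ (1 - (s : ℝ))) * (((l + 1 : ℕ) : ℝ) ^ (-(2 : ℝ))) := by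
      apply Summable.mul_left
      exact (summable_nat_add_iff 1).2 (Real.summable_nat_rpow.2 (by norm_num))
    refine Summable.of_norm_bounded_eventually_nat h1 ?_
    filter_upwards [eventually_ge_atTop l0] with l hl
    have hl1 : (0 : ℝ) < (l : ℝ) + 1 := by positivity
    have hl2 : (1 : ℝ) ≤ (l : ℝ) + 1 := by
      have : (0 : ℝ) ≤ (l : ℝ) := Nat.cast_nonneg _
      linarith
    have hKp := hKpos l
    rw [Real.norm_of_nonneg (by positivity)]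
    have h2 := (hI l hl).1
    have h3 : ((I l).card : ℝ) * (1 / (K l : ℝ)) ^ (s : ℝ) ≤
        (2 * (C / ((l : ℝ) + 1) ^ (p * q)) * K l / (1 / ((l : ℝ) + 1) ^ 2)) * (1 / (K l : ℝ)) ^ (s : ℝ) := by
      gcongr
    refine h3.trans ?_
    have h4 : (K l : ℝ) * (1 / (K l : ℝ)) ^ (s : ℝ) = (K l : ℝ) ^ (1 - (s : ℝ)) := by
      rw [one_div, Real.inv_rpow hKp.le, ← Real.rpow_neg hKp.le]
      nth_rw 1 [← Real.rpow_one (K l : ℝ)]
      rw [← Real.rpow_add hKp]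
      congr 1
    have h5 : (2 * (C / ((l : ℝ) + 1) ^ (p * q)) * K l / (1 / ((l : ℝ) + 1) ^ 2)) * (1 / (K l : ℝ)) ^ (s : ℝ) =
        2 * C * ((K l : ℝ) * (1 / (K l : ℝ)) ^ (s : ℝ)) * (((l : ℝ) + 1) ^ 2 / ((l : ℝ) + 1) ^ (p * q)) := by
      field_simp
    rw [h5, h4, hKr, Real.mul_rpow hM0.le (by positivity), ← Real.rpow_natCast ((l : ℝ) + 1) (w * q + 2),
      ← Real.rpow_mul hl1.le, ← Real.rpow_natCast ((l : ℝ) + 1) 2, ← Real.rpow_natCast ((l : ℝ) + 1) (p * q),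
      ← Real.rpow_sub hl1]
    have h6 : 2 * C * (M ^ (1 - (s : ℝ)) * ((l : ℝ) + 1) ^ (((w * q + 2 : ℕ) : ℝ) * (1 - (s : ℝ)))) *
        ((l : ℝ) + 1) ^ (((2 : ℕ) : ℝ) - ((p * q : ℕ) : ℝ)) = (2 * C * M ^ (1 - (s : ℝ))) *
        (((l : ℝ) + 1) ^ (((w * q + 2 : ℕ) : ℝ) * (1 - (s : ℝ))) *
          ((l : ℝ) + 1) ^ (((2 : ℕ) : ℝ) - ((p * q : ℕ) : ℝ))) := by ring
    rw [h6, ← Real.rpow_add hl1]
    push_cast
    gcongr
    have h7 : (1 - (s : ℝ)) = (p : ℝ) / w - η := by rw [hη]; ring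
    rw [h7]
    have h8 : 4 + 2 * (p : ℝ) / w < η * w * q := by
      rw [div_lt_iff₀ (by positivity)] at hq
      linarith
    have h9 : ((w : ℝ) * q + 2) * ((p : ℝ) / w - η) = p * q + 2 * p / w - η * w * q - 2 * η := by
      field_simp
      ring
    rw [h9]
    linarith
  have key := hnull_limsup hsp I (fun l i => 1 + i * (1 / (K l : ℝ))) (fun l => 1 / (K l : ℝ))
    (fun l => by positivity) hra hrt hsum
  have hsub : E ⊆ {a : ℝ | ∃ᶠ j in atTop, ∃ i ∈ I j, a ∈ Set.Icc (1 + i * (1 / (K j : ℝ)))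
      (1 + i * (1 / (K j : ℝ)) + 1 / (K j : ℝ))} := by
    intro a ha
    obtain ⟨ha1, ha2⟩ := hE a ha
    refine (ha2.and_eventually (eventually_ge_atTop l0)).mono fun l hl => ?_
    exact (hI l hl.2).2 a ha1 hl.1
  have h10 : μH[(s : ℝ)] E = 0 := le_antisymm ((measure_mono hsub).trans key.le) (zero_le)
  exact dimH_le_of_hausdorffMeasure_ne_top (by rw [h10]; exact ENNReal.zero_ne_top)

end Pool.Agent.U587.DX
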