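import Pool.Agent.U587.DX.Fix

set_option autoImplicit false

/-!
Countable families of nice functions which are dense in `L¹`.
-/

namespace Pool.Agent.U587.DX

open MeasureTheory Filter Finset
open Pool.Agent.Y957.MC (IsFlow flowInv smo smo_lip)
open Pool.Agent.R497.TD
open Pool.Agent.Y312.MC (smo_meas smo_bdd smo_L1 meas_orb flowInv_le ii_orb condExp_smo inv_of_meas int_bdd)
open Pool.Agent.U587.ET (exists_small prod_diff_c norm_prod_le_one dense_fns gs er gs_meas gs_bd gs_lip er_L1 sub_gs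
  er_meas er_bd)
open scoped ENNReal NNReal Topology

universe u

variable {X : Type u} [mX : MeasurableSpace X] {μ : Measure X}

/-- functions which are Lipschitz along the flow -/
lemma lip_family [IsProbabilityMeasure μ] [IsSeparable μ] {τ : ℝ → X → X} (hτ : IsFlow μ τ) :
    ∃ F : ℕ → X → ℂ, (∀ i, Measurable (F i)) ∧ (∀ i x, ‖F i x‖ ≤ 1) ∧
      (∀ i, ∃ L : ℝ, ∀ u v x, ‖F i (τ u x) - F i (τ v x)‖ ≤ L * |u - v|) ∧
      ∀ f : X → ℂ, Measurable f → (∀ x, ‖f x‖ ≤ 1 / 4) → ∀ ε : ℝ, 0 < ε → ∃ i, ∫ x, ‖f x - F i x‖ ∂μ < ε := by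
  obtain ⟨d, hdm, hd1, hd⟩ := dense_fns (μ := μ)
  obtain ⟨e, he⟩ := exists_surjective_nat (ℕ × ℕ)
  have hd2 : ∀ i x, ‖d i x / 2‖ ≤ 1 / 2 := fun i x => by
    rw [norm_div]
    have := hd1 i x
    simp only [Complex.norm_ofNat]
    linarith
  have hd2m : ∀ i, Measurable fun x => d i x / 2 := fun i => (hdm i).div_const _
  have hpos : ∀ k : ℕ, 0 < 1 / ((k : ℝ) + 1) := fun k => by positivity
  refine ⟨fun i => gs τ (fun x => d (e i).1 x / 2) (1 / (((e i).2 : ℝ) + 1)), fun i => gs_meas hτ (hd2m _) (hpos _),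
    fun i x => gs_bd (hd2 _) (hpos _) x, fun i => ⟨_, fun u v x => gs_lip hτ (hd2m _) (hd2 _) (hpos _) x u v⟩, ?_⟩
  intro f hf hf1 ε hε
  obtain ⟨i, hi⟩ := hd (fun x => 2 * f x) (measurable_const.mul hf) (fun x => by
    rw [norm_mul, Complex.norm_ofNat]
    linarith [hf1 x]) ε hε
  have h1 := er_L1 (μ := μ) hτ (hd2m i) (hd2 i)
  obtain ⟨k, hk⟩ := (h1.eventually (gt_mem_nhds (half_pos hε))).exists
  obtain ⟨l, hl⟩ := he (i, k)
  refine ⟨l, ?_⟩
  simp only [hl]
  have h2 : ∫ x, ‖f x - gs τ (fun x => d i x / 2) (1 / ((k : ℝ) + 1)) x‖ ∂μ ≤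
      ∫ x, ((1 / 2) * ‖2 * f x - d i x‖ + er τ (fun x => d i x / 2) (1 / ((k : ℝ) + 1)) x) ∂μ := by
    have hi1 : Integrable (fun x => (1 / 2 : ℝ) * ‖2 * f x - d i x‖) μ := by
      refine Integrable.of_bound (C := 1) (measurable_const.mul ((measurable_const.mul hf).sub (hdm i)).norm).aestronglyMeasurable
        (ae_of_all _ fun x => ?_)
      rw [Real.norm_of_nonneg (by positivity)]
      have := norm_sub_le (2 * f x) (d i x)
      rw [norm_mul, Complex.norm_ofNat] at this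
      linarith [hf1 x, hd1 i x]
    have hi2 : Integrable (er τ (fun x => d i x / 2) (1 / ((k : ℝ) + 1))) μ := by
      refine Integrable.of_bound (C := 2) (er_meas hτ (hd2m i) (hpos k)).aestronglyMeasurable (ae_of_all _ fun x => ?_)
      have := er_bd (τ := τ) (hd2 i) (hpos k) x
      rw [Real.norm_of_nonneg this.1]
      exact this.2
    refine integral_mono_of_nonneg (ae_of_all _ fun x => norm_nonneg _) (hi1.add hi2) (ae_of_all _ fun x => ?_)
    simp only
    have e1 : f x - gs τ (fun x => d i x / 2) (1 / ((k : ℝ) + 1)) x = (1 / 2) * (2 * f x - d i x) +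
        (d i x / 2 - gs τ (fun x => d i x / 2) (1 / ((k : ℝ) + 1)) x) := by ring
    rw [e1]
    refine (norm_add_le _ _).trans (add_le_add (le_of_eq ?_) ?_)
    · rw [norm_mul]
      norm_num
    · exact sub_gs (τ := τ) (f := fun x => d i x / 2) (1 / ((k : ℝ) + 1)) x
  refine lt_of_le_of_lt h2 ?_
  rw [integral_add, integral_const_mul]
  · linarith
  · refine Integrable.of_bound (C := 1) (measurable_const.mul ((measurable_const.mul hf).sub (hdm i)).norm).aestronglyMeasurable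
      (ae_of_all _ fun x => ?_)
    rw [Real.norm_of_nonneg (by positivity)]
    have := norm_sub_le (2 * f x) (d i x)
    rw [norm_mul, Complex.norm_ofNat] at this
    linarith [hf1 x, hd1 i x]
  · refine Integrable.of_bound (C := 2) (er_meas hτ (hd2m i) (hpos k)).aestronglyMeasurable (ae_of_all _ fun x => ?_)
    have := er_bd (τ := τ) (hd2 i) (hpos k) x
    rw [Real.norm_of_nonneg this.1]
    exact this.2

/-- the truncated conditional expectation -/
noncomputable def ce (μ : Measure X) (τ : ℝ → X → X) (h : X → ℝ) (x : X) : ℝ :=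
  max (-(1 / 8)) (min (1 / 8) ((μ[h | flowInv τ]) x))

lemma ce_meas (τ : ℝ → X → X) (h : X → ℝ) : Measurable[flowInv τ] (ce μ τ h) := by
  have : Measurable[flowInv τ] (μ[h | flowInv τ]) := stronglyMeasurable_condExp.measurable
  exact measurable_const.max (measurable_const.min this)

lemma ce_bd (τ : ℝ → X → X) (h : X → ℝ) (x : X) : |ce μ τ h x| ≤ 1 / 8 :=
  abs_le.2 ⟨le_max_left _ _, max_le (by norm_num) (min_le_left _ _)⟩

lemma ce_ae {τ : ℝ → X → X} {h : X → ℝ} (hb : ∀ x, |h x| ≤ 1 / 8) :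
    ce μ τ h =ᵐ[μ] μ[h | flowInv τ] := by
  have : ∀ᵐ x ∂μ, |(μ[h | flowInv τ]) x| ≤ 1 / 8 :=
    ae_bdd_abs_condExp_of_ae_bdd_abs (m := flowInv τ) (μ := μ) (f := h) (R := 1 / 8) (ae_of_all _ fun x => hb x)
  filter_upwards [this] with x hx
  rw [abs_le] at hx
  unfold ce
  rw [min_eq_right hx.2, max_eq_right hx.1]

/-- smooth coboundaries -/
lemma cob_family [IsProbabilityMeasure μ] [IsSeparable μ] {τ : ℝ → X → X} (hτ : IsFlow μ τ) :
    ∃ G : ℕ → X → ℝ, (∀ i, NiceG τ (G i)) ∧ (∀ i x, |G i x| ≤ 1 / 2) ∧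
      ∀ h : X → ℝ, Measurable h → (∀ x, |h x| ≤ 1 / 8) → ∀ ε : ℝ, 0 < ε →
        ∃ i, ∫ x, |h x - ce μ τ h x - G i x| ∂μ < ε := by
  obtain ⟨d, hdm, hd1, hd⟩ := dense_fns (μ := μ)
  obtain ⟨e, he⟩ := exists_surjective_nat (ℕ × ℕ × ℕ)
  have hm := flowInv_le (mX := mX) τ
  have hpos : ∀ k : ℕ, 0 < 1 / ((k : ℝ) + 1) := fun k => by positivity
  have hpos' : ∀ k : ℕ, 0 < (k : ℝ) + 1 := fun k => by positivity
  obtain ⟨d', hd'⟩ : ∃ d' : ℕ → X → ℝ, ∀ i x, d' i x = (d i x).re / 4 := ⟨_, fun i x => rfl⟩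
  have hd'm : ∀ i, Measurable (d' i) := fun i => by
    have : d' i = fun x => (d i x).re / 4 := funext (hd' i)
    rw [this]
    exact (Complex.measurable_re.comp (hdm i)).div_const _
  have hd'b : ∀ i x, |d' i x| ≤ 1 / 4 := fun i x => by
    rw [hd', abs_div]
    have := (Complex.abs_re_le_norm (d i x)).trans (hd1 i x)
    rw [abs_of_pos (by norm_num : (0 : ℝ) < 4)]
    linarith
  have hsm : ∀ i k, Measurable (smo τ (d' i) (1 / ((k : ℕ) + 1 : ℝ))) := fun i k => smo_meas hτ (hd'm i) (hpos k)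
  have hsb : ∀ i (k : ℕ) x, |smo τ (d' i) (1 / ((k : ℝ) + 1)) x| ≤ 1 / 4 := fun i k x => smo_bdd (hd'b i) (hpos k) x
  refine ⟨fun l x => smo τ (d' (e l).1) (1 / (((e l).2.1 : ℝ) + 1)) x -
    smo τ (smo τ (d' (e l).1) (1 / (((e l).2.1 : ℝ) + 1))) (((e l).2.2 : ℝ) + 1) x, fun l => ?_, fun l x => ?_, ?_⟩
  · exact Pool.Agent.R998.TD.niceG hτ (hd'm _) (by norm_num : (0 : ℝ) < 1 / 4) (hd'b _) (hpos _) (hpos' _)
  · have h1 := hsb (e l).1 (e l).2.1 x
    have h2 := smo_bdd (τ := τ) (hsb (e l).1 (e l).2.1) (hpos' (e l).2.2) x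
    exact (abs_sub _ _).trans (by linarith)
  intro h hh hb ε hε
  obtain ⟨i, hi⟩ := hd (fun x => ((4 * h x : ℝ) : ℂ)) (Complex.measurable_ofReal.comp (measurable_const.mul hh)) (fun x => by
    rw [Complex.norm_real, Real.norm_eq_abs, abs_mul]
    have := hb x
    rw [abs_of_pos (by norm_num : (0 : ℝ) < 4)]
    linarith) ε hε
  obtain ⟨k, hk⟩ := ((smo_L1 (μ := μ) hτ (hd'm i) (hd'b i)).eventually
    (gt_mem_nhds (by positivity : (0 : ℝ) < ε / 4))).exists
  obtain ⟨hs, hhs⟩ : ∃ hs : X → ℝ, hs = smo τ (d' i) (1 / ((k : ℝ) + 1)) := ⟨_, rfl⟩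
  have hhsm : Measurable hs := by rw [hhs]; exact hsm i k
  have hhsb : ∀ x, |hs x| ≤ 1 / 4 := fun x => by rw [hhs]; exact hsb i k x
  have hce_int : Integrable (μ[d' i | flowInv τ]) μ := integrable_condExp
  have ht := Pool.Agent.Y48.MC.flwb X μ τ hs hτ hhsm ⟨1 / 4, hhsb⟩
  have hcs : μ[d' i | flowInv τ] =ᵐ[μ] μ[hs | flowInv τ] := by rw [hhs]; exact condExp_smo hτ (hd'm i) (hd'b i) (hpos k)
  have hceb : ∀ᵐ x ∂μ, |(μ[d' i | flowInv τ]) x| ≤ 1 / 4 :=
    ae_bdd_abs_condExp_of_ae_bdd_abs (m := flowInv τ) (μ := μ) (f := d' i) (R := 1 / 4)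
      (ae_of_all _ fun x => hd'b i x)
  have hlim : Tendsto (fun n : ℕ => ∫ x, |smo τ hs ((n : ℝ) + 1) x - (μ[d' i | flowInv τ]) x| ∂μ) atTop
      (𝓝 (∫ _x : X, (0 : ℝ) ∂μ)) := by
    refine tendsto_integral_of_dominated_convergence (fun _ => 1 / 2) ?_ (integrable_const _) ?_ ?_
    · intro n
      exact ((smo_meas hτ hhsm (hpos' n)).aestronglyMeasurable.sub hce_int.aestronglyMeasurable).norm
    · intro n
      filter_upwards [hceb] with x hx
      have e1 := smo_bdd (τ := τ) hhsb (hpos' n) x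
      rw [Real.norm_eq_abs, abs_abs]
      exact (abs_sub _ _).trans (by linarith)
    · filter_upwards [ht, hcs] with x hx hx2
      have e1 : Tendsto (fun n : ℕ => (n : ℝ) + 1) atTop atTop :=
        tendsto_atTop_add_const_right _ _ tendsto_natCast_atTop_atTop
      have e2 := (hx.comp e1).sub (tendsto_const_nhds (x := (μ[d' i | flowInv τ]) x))
      rw [hx2, sub_self] at e2
      simpa [Function.comp_def, hx2] using e2.abs
  rw [integral_zero] at hlim
  obtain ⟨l, hl⟩ := (hlim.eventually (gt_mem_nhds (by positivity : (0 : ℝ) < ε / 4))).exists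
  obtain ⟨n, hn⟩ := he (i, k, l)
  refine ⟨n, ?_⟩
  simp only [hn]
  rw [← hhs]
  -- the four errors
  have i1 : Integrable (fun x => |h x - d' i x|) μ := int_bdd (hh.sub (hd'm i)).abs (C := 1) fun x => by
    rw [abs_abs]
    exact (abs_sub _ _).trans (by linarith [hb x, hd'b i x])
  have i2 : Integrable (fun x => |d' i x - hs x|) μ := int_bdd ((hd'm i).sub hhsm).abs (C := 1) fun x => by
    rw [abs_abs]
    exact (abs_sub _ _).trans (by linarith [hhsb x, hd'b i x])
  have i3 : Integrable (fun x => |smo τ hs ((l : ℝ) + 1) x - (μ[d' i | flowInv τ]) x|) μ := by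
    refine Integrable.of_bound (C := 1 / 2) ((smo_meas hτ hhsm (hpos' l)).aestronglyMeasurable.sub
      hce_int.aestronglyMeasurable).norm ?_
    filter_upwards [hceb] with x hx
    have e1 := smo_bdd (τ := τ) hhsb (hpos' l) x
    rw [Real.norm_eq_abs, abs_abs]
    exact (abs_sub _ _).trans (by linarith)
  have hhi : Integrable h μ := int_bdd hh hb
  have hdi : Integrable (d' i) μ := int_bdd (hd'm i) (hd'b i)
  have i4 : Integrable (fun x => |(μ[h - d' i | flowInv τ]) x|) μ := integrable_condExp.abs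
  have b1 : ∫ x, |h x - d' i x| ∂μ < ε / 4 := by
    have h1 : ∫ x, |h x - d' i x| ∂μ ≤ ∫ x, (1 / 4 : ℝ) * ‖((4 * h x : ℝ) : ℂ) - d i x‖ ∂μ := by
      refine integral_mono_of_nonneg (ae_of_all _ fun x => abs_nonneg _) ?_ (ae_of_all _ fun x => ?_)
      · refine Integrable.of_bound (C := 1) (measurable_const.mul ((Complex.measurable_ofReal.comp
          (measurable_const.mul hh)).sub (hdm i)).norm).aestronglyMeasurable (ae_of_all _ fun x => ?_)
        rw [Real.norm_of_nonneg (by positivity)]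
        have h2 := norm_sub_le (((4 * h x : ℝ) : ℂ)) (d i x)
        rw [Complex.norm_real, Real.norm_eq_abs, abs_mul, abs_of_pos (by norm_num : (0 : ℝ) < 4)] at h2
        linarith [hb x, hd1 i x]
      · simp only
        have h2 : h x - d' i x = (1 / 4) * ((((4 * h x : ℝ) : ℂ)) - d i x).re := by
          rw [hd', Complex.sub_re, Complex.ofReal_re]
          ring
        rw [h2, abs_mul, abs_of_pos (by norm_num : (0 : ℝ) < 1 / 4)]
        exact mul_le_mul_of_nonneg_left (Complex.abs_re_le_norm _) (by norm_num)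
    rw [integral_const_mul] at h1
    linarith
  have b4 : ∫ x, |(μ[h - d' i | flowInv τ]) x| ∂μ < ε / 4 :=
    lt_of_le_of_lt (integral_abs_condExp_le (h - d' i)) (by simpa using b1)
  have hle : ∫ x, |h x - ce μ τ h x - (hs x - smo τ hs ((l : ℝ) + 1) x)| ∂μ ≤
      ∫ x, ((|h x - d' i x| + |d' i x - hs x|) + (|smo τ hs ((l : ℝ) + 1) x - (μ[d' i | flowInv τ]) x| +
        |(μ[h - d' i | flowInv τ]) x|)) ∂μ := by
    refine integral_mono_of_nonneg (ae_of_all _ fun x => abs_nonneg _) ((i1.add i2).add (i3.add i4)) ?_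
    filter_upwards [ce_ae (μ := μ) (τ := τ) hb, condExp_sub (m := flowInv τ) hhi hdi] with x hx1 hx2
    rw [hx1, hx2]
    have e1 : h x - (μ[h | flowInv τ]) x - (hs x - smo τ hs ((l : ℝ) + 1) x) = (h x - d' i x) + (d' i x - hs x) +
        ((smo τ hs ((l : ℝ) + 1) x - (μ[d' i | flowInv τ]) x) -
          (μ[h | flowInv τ] - μ[d' i | flowInv τ]) x) := by
      simp only [Pi.sub_apply]
      ring
    rw [e1]
    refine (abs_add_le _ _).trans (add_le_add (abs_add_le _ _) (abs_sub _ _))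
  refine lt_of_le_of_lt hle ?_
  have hI := integral_add (i1.add i2) (i3.add i4)
  simp only [Pi.add_apply] at hI
  have hI1 := integral_add i1 i2
  have hI2 := integral_add i3 i4
  rw [← hhs] at hk
  linarith

end Pool.Agent.U587.DX
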