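import Pool.Agent.U587.DX.Dim
import Pool.Agent.R497.TD.Core2
import Pool.Agent.R235.TD.Corer
import Pool.Agent.R441.TDBC
import Pool.Agent.R711.TDDBD
import Pool.Agent.R711.TDOSC
import Pool.Agent.R746.TDKAP
import Pool.Agent.R497.TD.PINC
import Pool.Agent.R724.TD.PTW
import Pool.Agent.R258.TDJBD

set_option autoImplicit false

/-!
Nice data: the exceptional times of the averages with the factor of highest degree have Hausdorff dimension at most
`1 - 1 / (8 d)`.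
-/

namespace Pool.Agent.U587.DX

open MeasureTheory Filter Finset
open Pool.Agent.Y957.MC (IsFlow flowInv smo)
open Pool.Agent.R497.TD
open Pool.Agent.R235.TD (Concl flow_scale niceG_scale niceW_scale)
open scoped ENNReal NNReal Topology

universe u

/-- bound for a polynomial -/
lemma poly_bound (P : Polynomial ℝ) : ∃ C : ℝ, 0 ≤ C ∧ ∀ n : ℕ, |P.eval ((n : ℝ) + 1)| ≤ C * ((n : ℝ) + 1) ^ P.natDegree := by
  refine ⟨∑ i ∈ range (P.natDegree + 1), |P.coeff i|, sum_nonneg fun i _ => abs_nonneg _, fun n => ?_⟩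
  rw [Polynomial.eval_eq_sum_range, sum_mul]
  refine (abs_sum_le_sum_abs _ _).trans (sum_le_sum fun i hi => ?_)
  rw [abs_mul, abs_pow, abs_of_nonneg (by positivity : (0 : ℝ) ≤ (n : ℝ) + 1)]
  have h1 : (1 : ℝ) ≤ (n : ℝ) + 1 := by
    have : (0 : ℝ) ≤ (n : ℝ) := Nat.cast_nonneg _
    linarith
  rw [mem_range] at hi
  exact mul_le_mul_of_nonneg_left (pow_le_pow_right₀ h1 (by omega)) (abs_nonneg _)

section one

variable {X : Type u} [MeasurableSpace X] {μ : Measure X}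

/-- the truncated average -/
noncomputable def S (σ : ℝ → X → X) (g : X → ℝ) (P : Polynomial ℝ) (B : ℕ → ℝ → X → ℝ) (j K : ℕ) (a : ℝ) (x : X) : ℝ :=
  (1 / ((K ^ 16 : ℕ) : ℝ)) * ∑ n ∈ range (K ^ 16),
      B (n + 1) a x * (if ⌊(1 / ((j : ℝ) + 1)) * ((K ^ 16 : ℕ) : ℝ)⌋₊ ≤ n then
        g (σ (a * P.eval ((n : ℝ) + 1)) x) else 0)

/-- its mean square -/
noncomputable def Ph (μ : Measure X) (σ : ℝ → X → X) (g : X → ℝ) (P : Polynomial ℝ) (B : ℕ → ℝ → X → ℝ) (j K : ℕ)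
    (a : ℝ) : ℝ := ∫ x, (S σ g P B j K a x) ^ 2 ∂μ

variable {σ : ℝ → X → X} {g : X → ℝ} {P : Polynomial ℝ} {B : ℕ → ℝ → X → ℝ}

omit [MeasurableSpace X] in
lemma S_bd (hg1 : ∀ x, |g x| ≤ 1) (hB1 : ∀ n a x, |B n a x| ≤ 1) (j K : ℕ) (a : ℝ) (x : X) :
    |S σ g P B j K a x| ≤ 1 := by
  unfold S
  rcases Nat.eq_zero_or_pos (K ^ 16) with h0 | h0
  · rw [h0]; simp
  · have hN : (0 : ℝ) < ((K ^ 16 : ℕ) : ℝ) := by exact_mod_cast h0
    rw [abs_mul, abs_of_pos (by positivity : (0 : ℝ) < 1 / ((K ^ 16 : ℕ) : ℝ)), one_div, inv_mul_le_iff₀ hN,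
      mul_one]
    refine (abs_sum_le_sum_abs _ _).trans ?_
    calc _ ≤ ∑ n ∈ range (K ^ 16), (1 : ℝ) := by
          refine sum_le_sum fun n _ => ?_
          rw [abs_mul]
          refine mul_le_one₀ (hB1 _ _ _) (abs_nonneg _) ?_
          split_ifs
          · exact hg1 _
          · simp
      _ = _ := by simp

lemma S_meas (hσ : IsFlow μ σ) (hgm : Measurable g) (hBm : ∀ n, Measurable fun q : ℝ × X => B n q.1 q.2) (j K : ℕ)
    (a : ℝ) : Measurable (S σ g P B j K a) := by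
  unfold S
  refine measurable_const.mul (Finset.measurable_sum _ fun n _ => Measurable.mul ?_ ?_)
  · exact (hBm (n + 1)).comp (measurable_const.prodMk measurable_id)
  · split_ifs
    · exact hgm.comp (hσ.meas.comp (measurable_const.prodMk measurable_id))
    · exact measurable_const

omit [MeasurableSpace X] in
lemma S_lip (hg1 : ∀ x, |g x| ≤ 1) (hgl : ∀ u v x, |g (σ u x) - g (σ v x)| ≤ 1 * |u - v|)
    (hB1 : ∀ n a x, |B n a x| ≤ 1)
    (hBl : ∀ n, 1 ≤ n → ∀ a a' x, |B n a x - B n a' x| ≤ 1 * (n : ℝ) ^ (P.natDegree - 1) * |a - a'|)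
    {C : ℝ} (hC : 0 ≤ C) (hP : ∀ n : ℕ, |P.eval ((n : ℝ) + 1)| ≤ C * ((n : ℝ) + 1) ^ P.natDegree)
    (j K : ℕ) (a b : ℝ) (x : X) :
    |S σ g P B j K a x - S σ g P B j K b x| ≤ (1 + C) * ((K : ℝ) ^ (16 * P.natDegree)) * |a - b| := by
  unfold S
  rw [← mul_sub, ← sum_sub_distrib]
  rcases Nat.eq_zero_or_pos (K ^ 16) with h0 | h0
  · rw [h0]
    simp only [Nat.cast_zero, div_zero, range_zero, sum_empty, mul_zero, abs_zero]
    positivity
  · have hN : (0 : ℝ) < ((K ^ 16 : ℕ) : ℝ) := by exact_mod_cast h0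
    rw [abs_mul, abs_of_pos (by positivity : (0 : ℝ) < 1 / ((K ^ 16 : ℕ) : ℝ)), one_div, inv_mul_le_iff₀ hN]
    refine (abs_sum_le_sum_abs _ _).trans ?_
    have hterm : ∀ n ∈ range (K ^ 16), |B (n + 1) a x * (if ⌊(1 / ((j : ℝ) + 1)) * ((K ^ 16 : ℕ) : ℝ)⌋₊ ≤ n then
        g (σ (a * P.eval ((n : ℝ) + 1)) x) else 0) - B (n + 1) b x *
        (if ⌊(1 / ((j : ℝ) + 1)) * ((K ^ 16 : ℕ) : ℝ)⌋₊ ≤ n then g (σ (b * P.eval ((n : ℝ) + 1)) x) else 0)| ≤
        (1 + C) * ((K : ℝ) ^ (16 * P.natDegree)) * |a - b| := by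
      intro n hn
      rw [mem_range] at hn
      have hnN : (n : ℝ) + 1 ≤ ((K ^ 16 : ℕ) : ℝ) := by exact_mod_cast hn
      have hN1 : (1 : ℝ) ≤ ((K ^ 16 : ℕ) : ℝ) := by exact_mod_cast h0
      have hpow : ((n : ℝ) + 1) ^ P.natDegree ≤ (K : ℝ) ^ (16 * P.natDegree) := by
        rw [pow_mul]
        refine pow_le_pow_left₀ (by positivity) (hnN.trans (le_of_eq ?_)) _
        push_cast
        rfl
      have hpow' : ((n : ℝ) + 1) ^ (P.natDegree - 1) ≤ (K : ℝ) ^ (16 * P.natDegree) := by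
        refine le_trans (pow_le_pow_right₀ ?_ (Nat.sub_le _ _)) hpow
        have : (0 : ℝ) ≤ (n : ℝ) := Nat.cast_nonneg _
        linarith
      split_ifs with hc
      · have e1 : B (n + 1) a x * g (σ (a * P.eval ((n : ℝ) + 1)) x) - B (n + 1) b x *
            g (σ (b * P.eval ((n : ℝ) + 1)) x) = (B (n + 1) a x - B (n + 1) b x) *
            g (σ (a * P.eval ((n : ℝ) + 1)) x) + B (n + 1) b x * (g (σ (a * P.eval ((n : ℝ) + 1)) x) -
            g (σ (b * P.eval ((n : ℝ) + 1)) x)) := by ring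
        rw [e1]
        refine (abs_add_le _ _).trans ?_
        rw [abs_mul, abs_mul]
        have h1 := hBl (n + 1) (by omega) a b x
        have h2 := hgl (a * P.eval ((n : ℝ) + 1)) (b * P.eval ((n : ℝ) + 1)) x
        rw [← sub_mul, abs_mul] at h2
        have h3 : |B (n + 1) a x - B (n + 1) b x| * |g (σ (a * P.eval ((n : ℝ) + 1)) x)| ≤
            (K : ℝ) ^ (16 * P.natDegree) * |a - b| := by
          calc _ ≤ (1 * ((n + 1 : ℕ) : ℝ) ^ (P.natDegree - 1) * |a - b|) * 1 :=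
                mul_le_mul h1 (hg1 _) (abs_nonneg _) (by positivity)
            _ = ((n : ℝ) + 1) ^ (P.natDegree - 1) * |a - b| := by push_cast; ring
            _ ≤ _ := by gcongr
        have h4 : |B (n + 1) b x| * |g (σ (a * P.eval ((n : ℝ) + 1)) x) - g (σ (b * P.eval ((n : ℝ) + 1)) x)| ≤
            C * (K : ℝ) ^ (16 * P.natDegree) * |a - b| := by
          calc _ ≤ 1 * (1 * (|a - b| * |P.eval ((n : ℝ) + 1)|)) :=
                mul_le_mul (hB1 _ _ _) h2 (abs_nonneg _) zero_le_one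
            _ = |P.eval ((n : ℝ) + 1)| * |a - b| := by ring
            _ ≤ (C * ((n : ℝ) + 1) ^ P.natDegree) * |a - b| := by
                gcongr
                exact hP n
            _ ≤ _ := by gcongr
        calc _ ≤ (K : ℝ) ^ (16 * P.natDegree) * |a - b| + C * (K : ℝ) ^ (16 * P.natDegree) * |a - b| :=
              add_le_add h3 h4
          _ = _ := by ring
      · rw [mul_zero, mul_zero, sub_zero, abs_zero]
        positivity
    refine (sum_le_sum hterm).trans (le_of_eq ?_)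
    rw [sum_const, card_range, nsmul_eq_mul]

lemma Ph_lip [IsProbabilityMeasure μ] (hσ : IsFlow μ σ) (hgm : Measurable g)
    (hBm : ∀ n, Measurable fun q : ℝ × X => B n q.1 q.2) (hg1 : ∀ x, |g x| ≤ 1)
    (hgl : ∀ u v x, |g (σ u x) - g (σ v x)| ≤ 1 * |u - v|) (hB1 : ∀ n a x, |B n a x| ≤ 1)
    (hBl : ∀ n, 1 ≤ n → ∀ a a' x, |B n a x - B n a' x| ≤ 1 * (n : ℝ) ^ (P.natDegree - 1) * |a - a'|)
    {C : ℝ} (hC : 0 ≤ C) (hP : ∀ n : ℕ, |P.eval ((n : ℝ) + 1)| ≤ C * ((n : ℝ) + 1) ^ P.natDegree)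
    (j K : ℕ) (a b : ℝ) :
    |Ph μ σ g P B j K a - Ph μ σ g P B j K b| ≤ (2 * (1 + C)) * ((K : ℝ) ^ (16 * P.natDegree)) * |a - b| := by
  unfold Ph
  have hi : ∀ a, Integrable (fun x => (S σ g P B j K a x) ^ 2) μ := fun a => by
    refine Integrable.of_bound ((S_meas hσ hgm hBm j K a).pow_const 2).aestronglyMeasurable 1 (ae_of_all _ fun x => ?_)
    rw [Real.norm_eq_abs, abs_pow]
    exact pow_le_one₀ (abs_nonneg _) (S_bd hg1 hB1 _ _ _ _)
  rw [← integral_sub (hi a) (hi b)]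
  have h1 : ∀ x, |(S σ g P B j K a x) ^ 2 - (S σ g P B j K b x) ^ 2| ≤
      (2 * (1 + C)) * ((K : ℝ) ^ (16 * P.natDegree)) * |a - b| := by
    intro x
    rw [sq_sub_sq, abs_mul]
    have h2 := S_lip (σ := σ) (P := P) hg1 hgl hB1 hBl hC hP j K a b x
    have h3 : |S σ g P B j K a x + S σ g P B j K b x| ≤ 2 := by
      refine (abs_add_le _ _).trans ?_
      linarith [S_bd (σ := σ) (P := P) hg1 hB1 j K a x, S_bd (σ := σ) (P := P) hg1 hB1 j K b x]
    calc _ ≤ 2 * ((1 + C) * ((K : ℝ) ^ (16 * P.natDegree)) * |a - b|) :=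
          mul_le_mul h3 h2 (abs_nonneg _) (by norm_num)
      _ = _ := by ring
  have h2 : ‖∫ x, ((S σ g P B j K a x) ^ 2 - (S σ g P B j K b x) ^ 2) ∂μ‖ ≤
      ((2 * (1 + C)) * ((K : ℝ) ^ (16 * P.natDegree)) * |a - b|) * μ.real Set.univ :=
    norm_integral_le_of_norm_le_const (ae_of_all _ fun x => by rw [Real.norm_eq_abs]; exact h1 x)
  rw [Real.norm_eq_abs] at h2
  simpa using h2

/-- convergence at one time -/
lemma conv_at [IsProbabilityMeasure μ] (hσ : IsFlow μ σ) (hgm : Measurable g)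
    (hBm : ∀ n, Measurable fun q : ℝ × X => B n q.1 q.2) (hg1 : ∀ x, |g x| ≤ 1)
    (hB1 : ∀ n a x, |B n a x| ≤ 1) {a : ℝ}
    (h : ∀ j : ℕ, ∃ q : ℕ, 1 ≤ q ∧ ∀ᶠ l : ℕ in atTop, Ph μ σ g P B j ((l + 1) ^ q) a ≤ 1 / ((l : ℝ) + 1) ^ 2) :
    ∀ᵐ x ∂μ, Tendsto (fun N : ℕ => (1 / (N : ℝ)) * ∑ n ∈ Icc 1 N, B n a x * g (σ (a * P.eval (n : ℝ)) x))
        atTop (𝓝 0) := by
  have hj : ∀ j : ℕ, ∃ q : ℕ, 1 ≤ q ∧ ∀ᵐ x ∂μ, Tendsto (fun l : ℕ => S σ g P B j ((l + 1) ^ q) a x) atTop (𝓝 0) := by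
    intro j
    obtain ⟨q, hq, hl⟩ := h j
    refine ⟨q, hq, ?_⟩
    obtain ⟨l0, hl0⟩ := eventually_atTop.1 hl
    have hs : Summable fun l : ℕ => 1 / (((l + l0 : ℕ) : ℝ) + 1) ^ 2 := by
      have h2 := (summable_nat_add_iff (l0 + 1)).2 ((Real.summable_one_div_nat_pow (p := 2)).2 (by norm_num))
      refine h2.congr fun l => ?_
      push_cast
      ring
    have h3 := Pool.Agent.Y86.MC.ae_summable_of μ (fun l x => (S σ g P B j ((l + l0 + 1) ^ q) a x) ^ 2)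
      (fun l => (S_meas hσ hgm hBm _ _ _).pow_const 2) (fun l x => sq_nonneg _) _ hs (fun l => by
        refine Integrable.of_bound ((S_meas hσ hgm hBm j _ a).pow_const 2).aestronglyMeasurable 1
          (ae_of_all _ fun x => ?_)
        rw [Real.norm_eq_abs, abs_pow]
        exact pow_le_one₀ (abs_nonneg _) (S_bd hg1 hB1 _ _ _ _)) (fun l => hl0 (l + l0) (by omega))
    filter_upwards [h3] with x hx
    have h4 := hx.tendsto_atTop_zero
    have h5 := h4.sqrt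
    rw [Real.sqrt_zero] at h5
    have h6 : Tendsto (fun l : ℕ => S σ g P B j ((l + l0 + 1) ^ q) a x) atTop (𝓝 0) := by
      rw [tendsto_zero_iff_abs_tendsto_zero]
      refine h5.congr fun l => ?_
      exact Real.sqrt_sq_eq_abs _
    exact (tendsto_add_atTop_iff_nat l0).1 h6
  choose q hq hqx using hj
  filter_upwards [ae_all_iff.2 hqx] with x hx
  have h1 := Pool.Agent.Y86.MC.det (c := fun n => ((B n a x * g (σ (a * P.eval (n : ℝ)) x) : ℝ) : ℂ))
    (fun n => by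
      rw [Complex.norm_real, Real.norm_eq_abs, abs_mul]
      exact mul_le_one₀ (hB1 _ _ _) (abs_nonneg _) (hg1 _))
    (fun j => ⟨16 * q j, by have := hq j; omega, by
      have h2 := (Complex.continuous_ofReal.tendsto 0).comp (hx j)
      rw [Complex.ofReal_zero] at h2
      refine h2.congr fun l => ?_
      have e1 : ((l + 1) ^ q j) ^ 16 = (l + 1) ^ (16 * q j) := by rw [← pow_mul, mul_comm]
      simp only [Function.comp, S]
      rw [e1]
      have e2 : ∀ n : ℕ, B (n + 1) a x * (if ⌊(1 / ((j : ℝ) + 1)) * (((l + 1) ^ (16 * q j) : ℕ) : ℝ)⌋₊ ≤ n then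
          g (σ (a * P.eval ((n : ℝ) + 1)) x) else 0) =
          if ⌊(1 / ((j : ℝ) + 1)) * (((l + 1) ^ (16 * q j) : ℕ) : ℝ)⌋₊ ≤ n then
            (fun n : ℕ => B n a x * g (σ (a * P.eval (n : ℝ)) x)) (n + 1) else 0 := by
        intro n
        split_ifs
        · push_cast
          rfl
        · rw [mul_zero]
      rw [Finset.sum_congr rfl fun n _ => e2 n, Pool.Agent.R441.TDBC.sum_shift
        (fun n : ℕ => B n a x * g (σ (a * P.eval (n : ℝ)) x))]
      push_cast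
      rfl⟩)
  have h2 := (Complex.continuous_re.tendsto 0).comp h1
  rw [Complex.zero_re] at h2
  refine h2.congr fun N => ?_
  simp only [Function.comp]
  have : (1 / (N : ℂ)) * ∑ n ∈ Icc 1 N, ((B n a x * g (σ (a * P.eval (n : ℝ)) x) : ℝ) : ℂ) =
      (((1 / (N : ℝ)) * ∑ n ∈ Icc 1 N, B n a x * g (σ (a * P.eval (n : ℝ)) x) : ℝ) : ℂ) := by
    push_cast
    rfl
  rw [this, Complex.ofReal_re]

/-- the dimension bound for normalized real data -/
theorem bad_real [IsProbabilityMeasure μ] (hσ : IsFlow μ σ) (hgm : Measurable g)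
    (hg1 : ∀ x, |g x| ≤ 1) (hgl : ∀ u v x, |g (σ u x) - g (σ v x)| ≤ 1 * |u - v|)
    (hgp : ∀ u v x, |∫ r in u..v, g (σ r x)| ≤ 1) (hd : 0 < P.natDegree)
    (hlc : 0 < P.leadingCoeff) (hBm : ∀ n, Measurable fun q : ℝ × X => B n q.1 q.2)
    (hB1 : ∀ n a x, |B n a x| ≤ 1)
    (hBl : ∀ n, 1 ≤ n → ∀ a a' x, |B n a x - B n a' x| ≤ 1 * (n : ℝ) ^ (P.natDegree - 1) * |a - a'|) :
    dimH {a : ℝ | a ∈ Set.Icc (1 : ℝ) 2 ∧ ¬ ∀ᵐ x ∂μ,
      Tendsto (fun N : ℕ => (1 / (N : ℝ)) * ∑ n ∈ Icc 1 N, B n a x * g (σ (a * P.eval (n : ℝ)) x))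
        atTop (𝓝 0)} ≤ ENNReal.ofReal (1 - ((2 : ℕ) : ℝ) / ((16 * P.natDegree : ℕ) : ℝ)) := by
  obtain ⟨C, hC, hP⟩ := poly_bound P
  have hsub : {a : ℝ | a ∈ Set.Icc (1 : ℝ) 2 ∧ ¬ ∀ᵐ x ∂μ,
      Tendsto (fun N : ℕ => (1 / (N : ℝ)) * ∑ n ∈ Icc 1 N, B n a x * g (σ (a * P.eval (n : ℝ)) x))
        atTop (𝓝 0)} ⊆ ⋃ j : ℕ, {a : ℝ | a ∈ Set.Icc (1 : ℝ) 2 ∧ ∀ q : ℕ, 1 ≤ q →
          ∃ᶠ l : ℕ in atTop, 1 / ((l : ℝ) + 1) ^ 2 < Ph μ σ g P B j ((l + 1) ^ q) a} := by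
    intro a ha
    obtain ⟨ha1, ha2⟩ := ha
    by_contra hne
    apply ha2
    refine conv_at hσ hgm hBm hg1 hB1 fun j => ?_
    by_contra hj
    apply hne
    rw [Set.mem_iUnion]
    refine ⟨j, ha1, fun q hq => ?_⟩
    intro hev
    apply hj
    refine ⟨q, hq, ?_⟩
    filter_upwards [hev] with l hl
    exact not_lt.1 hl
  refine (dimH_mono hsub).trans ?_
  rw [dimH_iUnion]
  refine iSup_le fun j => ?_
  refine dimH_of_power (by omega) (by omega) fun q hq => ?_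
  obtain ⟨C', hC'⟩ := jcore (X := X) (μ := μ) Pool.Agent.R711.TDOSC.t_OSC
    (Pool.Agent.R711.TDDBD.t_DBD Pool.Agent.R746.t_KAP)
    (Pool.Agent.R258.TDJBD.t_JBD Pool.Agent.R724.TD.t_PTW) Pool.Agent.R497.TD.PINC784.t_PINC hσ hgm hg1 hgl hgp hd hlc
    hBm hB1 hBl j
  refine ⟨fun l a => Ph μ σ g P B j ((l + 1) ^ q) a, 2 * (1 + C), max C' 0, by positivity, le_max_right _ _,
    fun l a => integral_nonneg fun x => sq_nonneg _, fun l a _ b _ => ?_, ?_, fun a ha => ⟨ha.1, ha.2 q hq⟩⟩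
  · refine (Ph_lip (P := P) hσ hgm hBm hg1 hgl hB1 hBl hC hP j ((l + 1) ^ q) a b).trans (le_of_eq ?_)
    push_cast
    rw [← pow_mul, mul_comm q]
  · have ht : Tendsto (fun l : ℕ => (l + 1) ^ q) atTop atTop :=
      (tendsto_pow_atTop (by omega : q ≠ 0)).comp (tendsto_add_atTop_nat 1)
    filter_upwards [ht.eventually hC'] with l hl
    refine hl.trans ?_
    push_cast
    rw [← pow_mul, mul_comm 2 q]
    gcongr
    exact le_max_left _ _

end one

section two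

variable {X : Type u} [MeasurableSpace X] {μ : Measure X} [IsProbabilityMeasure μ]

/-- the bound on the dimension for degree `d` -/
noncomputable def dm (d : ℕ) : ℝ≥0∞ := ENNReal.ofReal (1 - ((2 : ℕ) : ℝ) / ((16 * d : ℕ) : ℝ))

lemma dm_mono {d d' : ℕ} (h : d ≤ d') (hd : 0 < d) : dm d ≤ dm d' := by
  unfold dm
  apply ENNReal.ofReal_le_ofReal
  have h0 : (0 : ℝ) < ((16 * d : ℕ) : ℝ) := by exact_mod_cast (by omega : 0 < 16 * d)
  have h1 : ((16 * d : ℕ) : ℝ) ≤ ((16 * d' : ℕ) : ℝ) := by exact_mod_cast Nat.mul_le_mul_left 16 h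
  have : ((2 : ℕ) : ℝ) / ((16 * d' : ℕ) : ℝ) ≤ ((2 : ℕ) : ℝ) / ((16 * d : ℕ) : ℝ) := by gcongr
  linarith

/-- the dimension bound for nice data, `a` in `[1, 2]` -/
theorem bad_nice {σ : ℝ → X → X} {g : X → ℝ} {P : Polynomial ℝ} {B : ℕ → ℝ → X → ℂ} (hσ : IsFlow μ σ)
    (hg : NiceG σ g) (hd : 0 < P.natDegree) (hlc : 0 < P.leadingCoeff) (hBn : NiceW P.natDegree B) :
    dimH {a : ℝ | a ∈ Set.Icc (1 : ℝ) 2 ∧ ¬ Concl μ σ g P B a} ≤ dm P.natDegree := by
  obtain ⟨hgm, C1, hg1, hgl, hgp⟩ := hg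
  obtain ⟨hBm, C2, hB2, hBl⟩ := hBn
  obtain ⟨C, hC⟩ : ∃ C : ℝ, C = max (max C1 C2) 1 := ⟨_, rfl⟩
  have hC1 : C1 ≤ C := hC ▸ (le_max_left _ _).trans (le_max_left _ _)
  have hC2 : C2 ≤ C := hC ▸ (le_max_right _ _).trans (le_max_left _ _)
  have hC0 : 0 < C := lt_of_lt_of_le one_pos (hC ▸ le_max_right _ _)
  have hdiv : ∀ z : ℝ, |z| ≤ C → |z / C| ≤ 1 := fun z hz => by
    rw [abs_div, abs_of_pos hC0, div_le_one hC0]; exact hz
  have hreal : ∀ B' : ℕ → ℝ → X → ℝ, (∀ n, Measurable fun q : ℝ × X => B' n q.1 q.2) → (∀ n a x, |B' n a x| ≤ C) →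
      (∀ n, 1 ≤ n → ∀ a a' x, |B' n a x - B' n a' x| ≤ C * (n : ℝ) ^ (P.natDegree - 1) * |a - a'|) →
      dimH {a : ℝ | a ∈ Set.Icc (1 : ℝ) 2 ∧ ¬ ∀ᵐ x ∂μ,
      Tendsto (fun N : ℕ => (1 / (N : ℝ)) * ∑ n ∈ Icc 1 N, B' n a x * g (σ (a * P.eval (n : ℝ)) x))
        atTop (𝓝 0)} ≤ dm P.natDegree := by
    intro B' hm hb hl
    have h1 := bad_real (μ := μ) hσ (g := fun x => g x / C) (hgm.div_const C) (fun x => hdiv _ ((hg1 x).trans hC1))
      (fun u v x => by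
        rw [← sub_div, abs_div, abs_of_pos hC0, div_le_iff₀ hC0, one_mul, mul_comm]
        refine (hgl u v x).trans ?_
        gcongr)
      (fun u v x => by
        rw [intervalIntegral.integral_div]
        exact hdiv _ ((hgp u v x).trans hC1))
      hd hlc (B := fun n a x => B' n a x / C) (fun n => (hm n).div_const C) (fun n a x => hdiv _ (hb n a x))
      (fun n hn a a' x => by
        rw [← sub_div, abs_div, abs_of_pos hC0, div_le_iff₀ hC0]
        refine (hl n hn a a' x).trans (le_of_eq ?_)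
        ring)
    refine (dimH_mono ?_).trans h1
    rintro a ⟨ha1, ha2⟩
    refine ⟨ha1, fun ha => ha2 ?_⟩
    filter_upwards [ha] with x hx
    have h2 := hx.const_mul (C * C)
    rw [mul_zero] at h2
    refine h2.congr fun N => ?_
    rw [← mul_assoc, mul_comm (C * C), mul_assoc, mul_sum]
    congr 1
    refine sum_congr rfl fun n _ => ?_
    field_simp
  have hre := hreal (fun n a x => (B n a x).re) (fun n => Complex.measurable_re.comp (hBm n))
    (fun n a x => (Complex.abs_re_le_norm _).trans ((hB2 n a x).trans hC2))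
    (fun n hn a a' x => by
      rw [← Complex.sub_re]
      refine (Complex.abs_re_le_norm _).trans ((hBl n hn a a' x).trans ?_)
      gcongr)
  have him := hreal (fun n a x => (B n a x).im) (fun n => Complex.measurable_im.comp (hBm n))
    (fun n a x => (Complex.abs_im_le_norm _).trans ((hB2 n a x).trans hC2))
    (fun n hn a a' x => by
      rw [← Complex.sub_im]
      refine (Complex.abs_im_le_norm _).trans ((hBl n hn a a' x).trans ?_)
      gcongr)
  refine (dimH_mono (t := {a : ℝ | a ∈ Set.Icc (1 : ℝ) 2 ∧ ¬ ∀ᵐ x ∂μ,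
      Tendsto (fun N : ℕ => (1 / (N : ℝ)) * ∑ n ∈ Icc 1 N, (B n a x).re * g (σ (a * P.eval (n : ℝ)) x))
        atTop (𝓝 0)} ∪ {a : ℝ | a ∈ Set.Icc (1 : ℝ) 2 ∧ ¬ ∀ᵐ x ∂μ,
      Tendsto (fun N : ℕ => (1 / (N : ℝ)) * ∑ n ∈ Icc 1 N, (B n a x).im * g (σ (a * P.eval (n : ℝ)) x))
        atTop (𝓝 0)}) ?_).trans ?_
  · rintro a ⟨ha1, ha2⟩
    by_contra hne
    rw [Set.mem_union, not_or] at hne
    simp only [Set.mem_ofPred_eq, not_and, not_not] at hne
    apply ha2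
    unfold Concl
    filter_upwards [hne.1 ha1, hne.2 ha1] with x hx1 hx2
    have h3 : Tendsto (fun N : ℕ => (((1 / (N : ℝ)) * ∑ n ∈ Icc 1 N, (B n a x).re * g (σ (a * P.eval (n : ℝ)) x) : ℝ) : ℂ))
        atTop (nhds ((0 : ℝ) : ℂ)) := (Complex.continuous_ofReal.tendsto 0).comp hx1
    have h4 : Tendsto (fun N : ℕ => (((1 / (N : ℝ)) * ∑ n ∈ Icc 1 N, (B n a x).im * g (σ (a * P.eval (n : ℝ)) x) : ℝ) : ℂ))
        atTop (nhds ((0 : ℝ) : ℂ)) := (Complex.continuous_ofReal.tendsto 0).comp hx2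
    have h5 := h3.add (h4.mul_const Complex.I)
    rw [Complex.ofReal_zero, zero_mul, add_zero] at h5
    refine h5.congr fun N => ?_
    push_cast
    rw [mul_assoc, ← mul_add, sum_mul, ← sum_add_distrib]
    congr 1
    refine sum_congr rfl fun n _ => ?_
    conv_rhs => rw [← Complex.re_add_im (B n a x)]
    ring
  · rw [dimH_union]
    exact max_le hre him

/-- all times -/
theorem bad_pos {σ : ℝ → X → X} {g : X → ℝ} {P : Polynomial ℝ} {B : ℕ → ℝ → X → ℂ} (hσ : IsFlow μ σ)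
    (hg : NiceG σ g) (hd : 0 < P.natDegree) (hlc : 0 < P.leadingCoeff) (hB : NiceW P.natDegree B) :
    dimH {a : ℝ | ¬ Concl μ σ g P B a} ≤ dm P.natDegree := by
  have key : ∀ A : ℝ, A ≠ 0 → dimH {a : ℝ | A⁻¹ * a ∈ Set.Icc (1 : ℝ) 2 ∧ ¬ Concl μ σ g P B a} ≤ dm P.natDegree := by
    intro A hA
    have h1 := bad_nice (μ := μ) (σ := fun t => σ (A * t)) (B := fun n a x => B n (A * a) x) (flow_scale hσ A)
      (niceG_scale hg hA) hd hlc (niceW_scale hB A)
    have hlip : LipschitzWith (Real.toNNReal |A|) fun b : ℝ => A * b := by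
      apply LipschitzWith.of_dist_le_mul
      intro b c
      rw [Real.dist_eq, Real.dist_eq, ← mul_sub, abs_mul, Real.coe_toNNReal _ (abs_nonneg _)]
    refine le_trans (dimH_mono ?_) ((hlip.dimH_image_le _).trans h1)
    rintro a ⟨ha1, ha2⟩
    refine ⟨A⁻¹ * a, ⟨ha1, fun h2 => ha2 ?_⟩, by simp only; rw [mul_inv_cancel_left₀ hA]⟩
    unfold Concl at h2 ⊢
    filter_upwards [h2] with x hx
    have e : ∀ n : ℕ, A * (A⁻¹ * a * P.eval (n : ℝ)) = a * P.eval (n : ℝ) := fun n => by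
      field_simp
    have e2 : A * (A⁻¹ * a) = a := mul_inv_cancel_left₀ hA a
    simpa only [e, e2] using hx
  have hsub : {a : ℝ | ¬ Concl μ σ g P B a} ⊆ {0} ∪ ⋃ i : ℤ,
      ({a : ℝ | ((2 : ℝ) ^ i)⁻¹ * a ∈ Set.Icc (1 : ℝ) 2 ∧ ¬ Concl μ σ g P B a} ∪
       {a : ℝ | (-(2 : ℝ) ^ i)⁻¹ * a ∈ Set.Icc (1 : ℝ) 2 ∧ ¬ Concl μ σ g P B a}) := by
    intro a ha
    rcases eq_or_ne a 0 with ha0 | ha0
    · left; exact ha0
    right
    rw [Set.mem_iUnion]
    obtain ⟨i, hi⟩ := exists_mem_Ico_zpow (abs_pos.2 ha0) (one_lt_two : (1 : ℝ) < 2)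
    have hp : (0 : ℝ) < 2 ^ i := by positivity
    have hi2 : |a| < 2 * 2 ^ i := by
      have := hi.2
      rw [zpow_add_one₀ (by norm_num)] at this
      linarith
    have hmem : ((2 : ℝ) ^ i)⁻¹ * |a| ∈ Set.Icc (1 : ℝ) 2 := by
      constructor
      · rw [inv_mul_eq_div, le_div_iff₀ hp, one_mul]
        exact hi.1
      · rw [inv_mul_eq_div, div_le_iff₀ hp]
        exact hi2.le
    refine ⟨i, ?_⟩
    rcases lt_or_gt_of_ne ha0 with hneg | hpos
    · right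
      refine ⟨?_, ha⟩
      rw [abs_of_neg hneg] at hmem
      rw [inv_neg, neg_mul_comm]
      exact hmem
    · left
      refine ⟨?_, ha⟩
      rw [abs_of_pos hpos] at hmem
      exact hmem
  refine (dimH_mono hsub).trans ?_
  rw [dimH_union, dimH_singleton, dimH_iUnion]
  refine max_le (zero_le) (iSup_le fun i => ?_)
  rw [dimH_union]
  have h2 : (2 : ℝ) ^ i ≠ 0 := by positivity
  exact max_le (key _ h2) (key _ (neg_ne_zero.2 h2))

/-- all times, all polynomials of positive degree -/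
theorem bad_all {σ : ℝ → X → X} {g : X → ℝ} {P : Polynomial ℝ} {B : ℕ → ℝ → X → ℂ} (hσ : IsFlow μ σ)
    (hg : NiceG σ g) (hd : 0 < P.natDegree) (hB : NiceW P.natDegree B) :
    dimH {a : ℝ | ¬ Concl μ σ g P B a} ≤ dm P.natDegree := by
  rcases lt_trichotomy 0 P.leadingCoeff with hl | hl | hl
  · exact bad_pos hσ hg hd hl hB
  · exfalso
    have := Polynomial.leadingCoeff_eq_zero.1 hl.symm
    rw [this] at hd
    simp at hd
  · have h1 := bad_pos (μ := μ) (P := -P) (B := B) (σ := fun t => σ (-1 * t)) (flow_scale hσ (-1))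
      (niceG_scale hg (by norm_num)) (by rwa [Polynomial.natDegree_neg])
      (by rw [Polynomial.leadingCoeff_neg]; linarith) (by rwa [Polynomial.natDegree_neg])
    rw [Polynomial.natDegree_neg] at h1
    refine (dimH_mono ?_).trans h1
    intro a ha h2
    apply ha
    unfold Concl at h2 ⊢
    filter_upwards [h2] with x hx
    have e : ∀ n : ℕ, -1 * (a * (-P).eval (n : ℝ)) = a * P.eval (n : ℝ) := fun n => by
      rw [Polynomial.eval_neg]; ring
    simpa only [e] using hx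

end two

end Pool.Agent.U587.DX
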