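import Pool.Agent.U587.DX.Top

set_option autoImplicit false

/-!
General functions and weights; products with distinct degrees.
-/

namespace Pool.Agent.U587.DX

open MeasureTheory Filter Finset
open Pool.Agent.Y957.MC (IsFlow flowInv smo smo_lip)
open Pool.Agent.R497.TD
open Pool.Agent.R506.TDFG (exists_version)
open Pool.Agent.Y312.MC (flowInv_le)
open scoped ENNReal NNReal Topology

universe u

variable {X : Type u} [mX : MeasurableSpace X] {μ : Measure X}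

/-- versions of the weights -/
lemma weights_version {ι : Type*} {W : ι → X → ℂ} (hWm : ∀ n, AEStronglyMeasurable (W n) μ)
    (hWb : ∃ C : ℝ, ∀ n, ∀ᵐ x ∂μ, ‖W n x‖ ≤ C) : ∃ (M : ℝ) (V : ι → X → ℂ), 0 < M ∧ (∀ n, Measurable (V n)) ∧
      (∀ n x, ‖V n x‖ ≤ 1) ∧ ∀ n, ∀ᵐ x ∂μ, W n x = M * V n x := by
  obtain ⟨C, hC⟩ := hWb
  obtain ⟨M, hM⟩ : ∃ M : ℝ, M = |C| + 1 := ⟨_, rfl⟩
  have hM0 : 0 < M := by rw [hM]; positivity
  have hMc : (M : ℂ) ≠ 0 := by exact_mod_cast hM0.ne'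
  have hver : ∀ n, ∃ V : X → ℂ, Measurable V ∧ (∀ x, ‖V x‖ ≤ 1) ∧ ∀ᵐ x ∂μ, W n x = M * V x := by
    intro n
    have hm : Measurable ((hWm n).mk (W n)) := (hWm n).stronglyMeasurable_mk.measurable
    refine ⟨fun x => if ‖(hWm n).mk (W n) x‖ ≤ M then (hWm n).mk (W n) x / (M : ℂ) else 0, ?_, fun x => ?_, ?_⟩
    · exact Measurable.ite (measurableSet_le hm.norm measurable_const) (hm.div_const _) measurable_const
    · beta_reduce
      split_ifs with h
      · rw [norm_div, Complex.norm_real, Real.norm_of_nonneg hM0.le, div_le_one hM0]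
        exact h
      · simp
    · filter_upwards [hC n, (hWm n).ae_eq_mk] with x h1 h2
      rw [← h2, if_pos (h1.trans ((le_abs_self _).trans (by rw [hM]; linarith)))]
      field_simp
  choose V hVm hV1 hVW using hver
  exact ⟨M, V, hM0, hVm, hV1, hVW⟩

/-- the factor of highest degree decouples, general functions and weights -/
theorem top_gen [IsProbabilityMeasure μ] [IsSeparable μ] {m : ℕ} {τ : Fin m → ℝ → X → X} (hτ : ∀ j, IsFlow μ (τ j))
    {P : Fin m → Polynomial ℝ} (hP : ∀ j, 0 < (P j).natDegree) {d : ℕ} (hd : ∀ j, (P j).natDegree ≤ d)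
    {W : ℕ → X → ℂ} (hWm : ∀ n, AEStronglyMeasurable (W n) μ) (hWb : ∃ C : ℝ, ∀ n, ∀ᵐ x ∂μ, ‖W n x‖ ≤ C) :
    ∃ D : Set ℝ, dimH D ≤ dm d ∧ ∀ a, a ∉ D → ∀ (s : Finset (Fin m)) (t : Fin m),
      t ∉ s → (∀ j ∈ s, (P j).natDegree < (P t).natDegree) → ∀ f : Fin m → X → ℂ,
      (∀ j, AEStronglyMeasurable (f j) μ) → (∀ j, ∃ C : ℝ, ∀ᵐ x ∂μ, ‖f j x‖ ≤ C) →
      Tendsto (fun N : ℕ => ∫ x, ‖(1 / (N : ℂ)) * ∑ n ∈ Icc 1 N,
        (W n x * ∏ j ∈ s, f j (τ j (a * (P j).eval (n : ℝ)) x)) *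
          (f t (τ t (a * (P t).eval (n : ℝ)) x) - (μ[f t | flowInv (τ t)]) x)‖ ∂μ) atTop (𝓝 0) ∧
      ((∀ j, Sg μ (τ j) (P j) a) → ∀ᵐ x ∂μ, Tendsto (fun N : ℕ => (1 / (N : ℂ)) * ∑ n ∈ Icc 1 N,
        (W n x * ∏ j ∈ s, f j (τ j (a * (P j).eval (n : ℝ)) x)) *
          (f t (τ t (a * (P t).eval (n : ℝ)) x) - (μ[f t | flowInv (τ t)]) x)) atTop (𝓝 0)) := by
  classical
  obtain ⟨M, V, hM0, hVm, hV1, hVW⟩ := weights_version hWm hWb
  obtain ⟨D, hD, hDa⟩ := top_norm hτ hP hd hVm hV1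
  refine ⟨D, hD, fun a ha s t hts hst f hf hfb => ?_⟩
  choose g hgm hgb hfg using fun j => exists_version (hf j) (hfb j)
  choose K hK using hgb
  obtain ⟨R, hR⟩ : ∃ R : ℝ, R = 8 * (∑ j, |K j| + 1) := ⟨_, rfl⟩
  have hR0 : 0 < R := by
    rw [hR]
    have : 0 ≤ ∑ j, |K j| := Finset.sum_nonneg fun j _ => abs_nonneg _
    linarith
  have hRc : (R : ℂ) ≠ 0 := by exact_mod_cast hR0.ne'
  have hgR : ∀ j x, ‖(R : ℂ)⁻¹ * g j x‖ ≤ 1 / 8 := by
    intro j x
    rw [norm_mul, norm_inv, Complex.norm_real, Real.norm_of_nonneg hR0.le, inv_mul_le_iff₀ hR0]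
    have h1 := (hK j x).trans (le_abs_self _)
    have h2 : |K j| ≤ ∑ j, |K j| :=
      Finset.single_le_sum (f := fun j => |K j|) (fun i _ => abs_nonneg _) (Finset.mem_univ j)
    rw [hR]
    linarith
  have key := hDa a ha s t hts hst (fun j x => (R : ℂ)⁻¹ * g j x) (fun j => measurable_const.mul (hgm j)) hgR
  have hver2 : ∀ᵐ x ∂μ, ∀ (j : Fin m) (n : ℕ), f j (τ j (a * (P j).eval (n : ℝ)) x) =
      g j (τ j (a * (P j).eval (n : ℝ)) x) := by
    rw [ae_all_iff]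
    intro j
    rw [ae_all_iff]
    intro n
    exact ((hτ j).mp _).quasiMeasurePreserving.ae (hfg j)
  have hce : μ[fun x => (R : ℂ)⁻¹ * g t x | flowInv (τ t)] =ᵐ[μ] fun x => (R : ℂ)⁻¹ * (μ[f t | flowInv (τ t)]) x := by
    have h1 : μ[(R : ℂ)⁻¹ • g t | flowInv (τ t)] =ᵐ[μ] (R : ℂ)⁻¹ • μ[g t | flowInv (τ t)] := condExp_smul _ _ _
    have h2 : μ[f t | flowInv (τ t)] =ᵐ[μ] μ[g t | flowInv (τ t)] := condExp_congr_ae (hfg t)
    have h3 : (fun x => (R : ℂ)⁻¹ * g t x) = (R : ℂ)⁻¹ • g t := rfl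
    rw [h3]
    filter_upwards [h1, h2] with x hx1 hx2
    rw [hx1, Pi.smul_apply, smul_eq_mul, hx2]
  have hid : ∀ᵐ x ∂μ, ∀ N : ℕ, ((M : ℂ) * (R : ℂ) ^ (s.card + 1)) * ((1 / (N : ℂ)) * ∑ n ∈ Icc 1 N,
        (V n x * ∏ j ∈ s, (fun j x => (R : ℂ)⁻¹ * g j x) j (τ j (a * (P j).eval (n : ℝ)) x)) *
          ((fun j x => (R : ℂ)⁻¹ * g j x) t (τ t (a * (P t).eval (n : ℝ)) x) -
            (μ[(fun j x => (R : ℂ)⁻¹ * g j x) t | flowInv (τ t)]) x)) = (1 / (N : ℂ)) * ∑ n ∈ Icc 1 N,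
        (W n x * ∏ j ∈ s, f j (τ j (a * (P j).eval (n : ℝ)) x)) *
          (f t (τ t (a * (P t).eval (n : ℝ)) x) - (μ[f t | flowInv (τ t)]) x) := by
    filter_upwards [hver2, hce, ae_all_iff.2 hVW] with x h2 h3 h4 N
    rw [← mul_assoc, mul_comm ((M : ℂ) * (R : ℂ) ^ (s.card + 1)), mul_assoc, mul_sum]
    congr 1
    refine sum_congr rfl fun n _ => ?_
    rw [h3, h4 n, h2 t n]
    have e1 : ∏ j ∈ s, f j (τ j (a * (P j).eval (n : ℝ)) x) = ∏ j ∈ s, g j (τ j (a * (P j).eval (n : ℝ)) x) :=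
      prod_congr rfl fun j _ => h2 j n
    rw [e1, prod_mul_distrib, prod_const]
    have hRs : (R : ℂ) ^ s.card ≠ 0 := pow_ne_zero _ hRc
    have e2 : (R : ℂ)⁻¹ * g t (τ t (a * (P t).eval (n : ℝ)) x) - (R : ℂ)⁻¹ * (μ[f t | flowInv (τ t)]) x =
        (R : ℂ)⁻¹ * (g t (τ t (a * (P t).eval (n : ℝ)) x) - (μ[f t | flowInv (τ t)]) x) := by ring
    rw [e2, pow_succ, inv_pow]
    field_simp
  refine ⟨?_, fun hS => ?_⟩
  · have h5 := key.1.const_mul ‖(M : ℂ) * (R : ℂ) ^ (s.card + 1)‖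
    rw [mul_zero] at h5
    refine h5.congr fun N => ?_
    rw [← integral_const_mul]
    refine integral_congr_ae ?_
    filter_upwards [hid] with x hx
    rw [← norm_mul, hx N]
  · filter_upwards [key.2 hS, hid] with x hx h2
    have h5 := hx.const_mul ((M : ℂ) * (R : ℂ) ^ (s.card + 1))
    rw [mul_zero] at h5
    exact h5.congr fun N => h2 N

/-- distinct degrees -/
theorem prod_gen [IsProbabilityMeasure μ] [IsSeparable μ] {m : ℕ} {τ : Fin m → ℝ → X → X} (hτ : ∀ j, IsFlow μ (τ j))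
    {P : Fin m → Polynomial ℝ} (hP : ∀ j, 0 < (P j).natDegree) {d : ℕ} (hd : ∀ j, (P j).natDegree ≤ d)
    {W : ℕ → X → ℂ} (hWm : ∀ n, AEStronglyMeasurable (W n) μ) (hWb : ∃ C : ℝ, ∀ n, ∀ᵐ x ∂μ, ‖W n x‖ ≤ C)
    (hinj : Function.Injective fun j => (P j).natDegree) :
    ∃ D : Set ℝ, dimH D ≤ dm d ∧ ∀ a, a ∉ D → ∀ f : Fin m → X → ℂ,
      (∀ j, AEStronglyMeasurable (f j) μ) → (∀ j, ∃ C : ℝ, ∀ᵐ x ∂μ, ‖f j x‖ ≤ C) →
      Tendsto (fun N : ℕ => ∫ x, ‖(1 / (N : ℂ)) * ∑ n ∈ Icc 1 N, W n x *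
        (∏ j, f j (τ j (a * (P j).eval (n : ℝ)) x) - ∏ j, (μ[f j | flowInv (τ j)]) x)‖ ∂μ) atTop (𝓝 0) ∧
      ((∀ j, Sg μ (τ j) (P j) a) → ∀ᵐ x ∂μ, Tendsto (fun N : ℕ => (1 / (N : ℂ)) * ∑ n ∈ Icc 1 N, W n x *
        (∏ j, f j (τ j (a * (P j).eval (n : ℝ)) x) - ∏ j, (μ[f j | flowInv (τ j)]) x)) atTop (𝓝 0)) := by
  classical
  obtain ⟨D, hD, hDa⟩ := top_gen hτ hP hd hWm hWb
  refine ⟨D, hD, fun a ha f hf hfb => ?_⟩
  choose C hC using hfb
  obtain ⟨CW, hCW⟩ := hWb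
  have hcb : ∀ j, ∀ᵐ x ∂μ, ‖(μ[f j | flowInv (τ j)]) x‖ ≤ |C j| := by
    intro j
    have h1 := ae_bdd_norm_condExp_of_ae_bdd_norm (m := flowInv (τ j)) (μ := μ) (f := f j) (R := |C j|) (by
      filter_upwards [hC j] with x hx
      exact hx.trans (le_abs_self _))
    exact h1
  have hfo : ∀ᵐ x ∂μ, ∀ (j : Fin m) (n : ℕ), ‖f j (τ j (a * (P j).eval (n : ℝ)) x)‖ ≤ |C j| := by
    rw [ae_all_iff]
    intro j
    rw [ae_all_iff]
    intro n
    filter_upwards [((hτ j).mp _).quasiMeasurePreserving.ae (hC j)] with x hx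
    exact hx.trans (le_abs_self _)
  suffices H : ∀ s : Finset (Fin m),
      Tendsto (fun N : ℕ => ∫ x, ‖(1 / (N : ℂ)) * ∑ n ∈ Icc 1 N, W n x *
        (∏ j ∈ s, f j (τ j (a * (P j).eval (n : ℝ)) x) - ∏ j ∈ s, (μ[f j | flowInv (τ j)]) x)‖ ∂μ)
        atTop (𝓝 0) ∧
      ((∀ j, Sg μ (τ j) (P j) a) → ∀ᵐ x ∂μ,
      Tendsto (fun N : ℕ => (1 / (N : ℂ)) * ∑ n ∈ Icc 1 N, W n x *
        (∏ j ∈ s, f j (τ j (a * (P j).eval (n : ℝ)) x) - ∏ j ∈ s, (μ[f j | flowInv (τ j)]) x))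
        atTop (𝓝 0)) from H univ
  have hAmeas : ∀ (s : Finset (Fin m)) (N : ℕ), AEStronglyMeasurable (fun x => (1 / (N : ℂ)) * ∑ n ∈ Icc 1 N, W n x *
        (∏ j ∈ s, f j (τ j (a * (P j).eval (n : ℝ)) x) - ∏ j ∈ s, (μ[f j | flowInv (τ j)]) x)) μ := by
    intro s N
    refine AEStronglyMeasurable.const_mul ?_ _
    have h1 : (fun x => ∑ n ∈ Icc 1 N, W n x *
        (∏ j ∈ s, f j (τ j (a * (P j).eval (n : ℝ)) x) - ∏ j ∈ s, (μ[f j | flowInv (τ j)]) x)) =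
        ∑ n ∈ Icc 1 N, fun x => W n x *
        (∏ j ∈ s, f j (τ j (a * (P j).eval (n : ℝ)) x) - ∏ j ∈ s, (μ[f j | flowInv (τ j)]) x) := by
      funext x
      rw [Finset.sum_apply]
    rw [h1]
    refine Finset.aestronglyMeasurable_sum _ fun n _ => (hWm n).mul (AEStronglyMeasurable.sub ?_ ?_)
    · have h2 : (fun x => ∏ j ∈ s, f j (τ j (a * (P j).eval (n : ℝ)) x)) =
          ∏ j ∈ s, fun x => f j (τ j (a * (P j).eval (n : ℝ)) x) := by
        funext x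
        rw [Finset.prod_apply]
      rw [h2]
      exact Finset.aestronglyMeasurable_prod _ fun j _ => (hf j).comp_measurePreserving ((hτ j).mp _)
    · have h2 : (fun x => ∏ j ∈ s, (μ[f j | flowInv (τ j)]) x) = ∏ j ∈ s, (μ[f j | flowInv (τ j)]) := by
        funext x
        rw [Finset.prod_apply]
      rw [h2]
      exact Finset.aestronglyMeasurable_prod _ fun j _ => integrable_condExp.aestronglyMeasurable
  have hTmeas : ∀ (s : Finset (Fin m)) (t : Fin m) (N : ℕ), AEStronglyMeasurable (fun x => (1 / (N : ℂ)) *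
      ∑ n ∈ Icc 1 N, (W n x * ∏ j ∈ s, f j (τ j (a * (P j).eval (n : ℝ)) x)) *
          (f t (τ t (a * (P t).eval (n : ℝ)) x) - (μ[f t | flowInv (τ t)]) x)) μ := by
    intro s t N
    refine AEStronglyMeasurable.const_mul ?_ _
    have h1 : (fun x => ∑ n ∈ Icc 1 N, (W n x * ∏ j ∈ s, f j (τ j (a * (P j).eval (n : ℝ)) x)) *
          (f t (τ t (a * (P t).eval (n : ℝ)) x) - (μ[f t | flowInv (τ t)]) x)) =
        ∑ n ∈ Icc 1 N, fun x => (W n x * ∏ j ∈ s, f j (τ j (a * (P j).eval (n : ℝ)) x)) *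
          (f t (τ t (a * (P t).eval (n : ℝ)) x) - (μ[f t | flowInv (τ t)]) x) := by
      funext x
      rw [Finset.sum_apply]
    rw [h1]
    refine Finset.aestronglyMeasurable_sum _ fun n _ => AEStronglyMeasurable.mul ((hWm n).mul ?_)
      (((hf t).comp_measurePreserving ((hτ t).mp _)).sub integrable_condExp.aestronglyMeasurable)
    have h2 : (fun x => ∏ j ∈ s, f j (τ j (a * (P j).eval (n : ℝ)) x)) =
        ∏ j ∈ s, fun x => f j (τ j (a * (P j).eval (n : ℝ)) x) := by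
      funext x
      rw [Finset.prod_apply]
    rw [h2]
    exact Finset.aestronglyMeasurable_prod _ fun j _ => (hf j).comp_measurePreserving ((hτ j).mp _)
  have havg : ∀ (c : ℕ → ℂ) (K : ℝ) (N : ℕ), 0 ≤ K → (∀ n, ‖c n‖ ≤ K) → ‖(1 / (N : ℂ)) * ∑ n ∈ Icc 1 N, c n‖ ≤ K := by
    intro c K N hK hc
    rw [norm_mul, norm_div, norm_one, Complex.norm_natCast]
    rcases Nat.eq_zero_or_pos N with hN | hN
    · rw [hN]; simpa using hK
    · have hN0 : (0 : ℝ) < N := by exact_mod_cast hN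
      rw [one_div, inv_mul_le_iff₀ hN0]
      refine (norm_sum_le _ _).trans ?_
      refine (sum_le_sum (g := fun _ => K) fun n _ => hc n).trans (by
        rw [sum_const, Nat.card_Icc, nsmul_eq_mul]; simp)
  have hprodb : ∀ (s : Finset (Fin m)) (u : Fin m → ℂ), (∀ j, ‖u j‖ ≤ |C j|) → ‖∏ j ∈ s, u j‖ ≤ ∏ j ∈ s, |C j| := by
    intro s u hu
    rw [norm_prod]
    exact Finset.prod_le_prod (fun j _ => norm_nonneg _) fun j _ => hu j
  intro s
  induction s using Finset.induction_on_max_value (fun j => (P j).natDegree) with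
  | empty =>
    constructor
    · simp only [prod_empty, sub_self, mul_zero, sum_const_zero, norm_zero, integral_zero]
      exact tendsto_const_nhds
    · intro _
      refine Eventually.of_forall fun x => ?_
      simp only [prod_empty, sub_self, mul_zero, sum_const_zero]
      exact tendsto_const_nhds
  | insert i s hi hmax ih =>
    have hdi : ∀ j ∈ s, (P j).natDegree < (P i).natDegree := by
      intro j hj
      refine lt_of_le_of_ne (hmax j hj) fun h => ?_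
      have h5 : j = i := hinj h
      rw [h5] at hj
      exact hi hj
    have ht := hDa a ha s i hi hdi f hf (fun j => ⟨C j, hC j⟩)
    have hid : ∀ (x : X) (N : ℕ), (1 / (N : ℂ)) * ∑ n ∈ Icc 1 N, W n x *
        (∏ j ∈ insert i s, f j (τ j (a * (P j).eval (n : ℝ)) x) - ∏ j ∈ insert i s, (μ[f j | flowInv (τ j)]) x) =
        (1 / (N : ℂ)) * ∑ n ∈ Icc 1 N, (W n x * ∏ j ∈ s, f j (τ j (a * (P j).eval (n : ℝ)) x)) *
          (f i (τ i (a * (P i).eval (n : ℝ)) x) - (μ[f i | flowInv (τ i)]) x) +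
        (μ[f i | flowInv (τ i)]) x * ((1 / (N : ℂ)) * ∑ n ∈ Icc 1 N, W n x *
        (∏ j ∈ s, f j (τ j (a * (P j).eval (n : ℝ)) x) - ∏ j ∈ s, (μ[f j | flowInv (τ j)]) x)) := by
      intro x N
      rw [mul_left_comm ((μ[f i | flowInv (τ i)]) x) (1 / (N : ℂ)), ← mul_add,
        mul_sum (Icc 1 N) _ ((μ[f i | flowInv (τ i)]) x), ← sum_add_distrib]
      congr 1
      refine sum_congr rfl fun n _ => ?_
      rw [prod_insert hi, prod_insert hi]
      ring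
    constructor
    · have h6 := ht.1.add (ih.1.const_mul |C i|)
      rw [mul_zero, add_zero] at h6
      refine squeeze_zero (fun N => integral_nonneg fun x => norm_nonneg _) (fun N => ?_) h6
      have hK0 : ∀ s' : Finset (Fin m), 0 ≤ ∏ j ∈ s', |C j| := fun s' => prod_nonneg fun j _ => abs_nonneg _
      have j1 : Integrable (fun x => ‖(1 / (N : ℂ)) * ∑ n ∈ Icc 1 N,
          (W n x * ∏ j ∈ s, f j (τ j (a * (P j).eval (n : ℝ)) x)) *
          (f i (τ i (a * (P i).eval (n : ℝ)) x) - (μ[f i | flowInv (τ i)]) x)‖) μ := by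
        refine Integrable.of_bound (C := (|CW| * ∏ j ∈ s, |C j|) * (|C i| + |C i|)) (hTmeas s i N).norm ?_
        filter_upwards [ae_all_iff.2 hCW, hfo, hcb i] with x hx1 hx2 hx3
        rw [norm_norm]
        refine havg _ _ N (mul_nonneg (mul_nonneg (abs_nonneg _) (hK0 s)) (by positivity)) fun n => ?_
        rw [norm_mul, norm_mul]
        refine mul_le_mul (mul_le_mul ((hx1 n).trans (le_abs_self _)) (hprodb s _ fun j => hx2 j n) (norm_nonneg _)
          (abs_nonneg _)) ((norm_sub_le _ _).trans (add_le_add (hx2 i n) hx3)) (norm_nonneg _)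
          (mul_nonneg (abs_nonneg _) (hK0 s))
      have j2 : Integrable (fun x => ‖(1 / (N : ℂ)) * ∑ n ∈ Icc 1 N, W n x *
          (∏ j ∈ s, f j (τ j (a * (P j).eval (n : ℝ)) x) - ∏ j ∈ s, (μ[f j | flowInv (τ j)]) x)‖) μ := by
        refine Integrable.of_bound (C := |CW| * (∏ j ∈ s, |C j| + ∏ j ∈ s, |C j|)) (hAmeas s N).norm ?_
        filter_upwards [ae_all_iff.2 hCW, hfo, ae_all_iff.2 hcb] with x hx1 hx2 hx3
        rw [norm_norm]
        refine havg _ _ N (mul_nonneg (abs_nonneg _) (add_nonneg (hK0 s) (hK0 s))) fun n => ?_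
        rw [norm_mul]
        exact mul_le_mul ((hx1 n).trans (le_abs_self _)) ((norm_sub_le _ _).trans
          (add_le_add (hprodb s _ fun j => hx2 j n) (hprodb s _ fun j => hx3 j))) (norm_nonneg _) (abs_nonneg _)
      rw [← integral_const_mul, ← integral_add j1 (j2.const_mul _)]
      refine integral_mono_of_nonneg (ae_of_all _ fun x => norm_nonneg _) (j1.add (j2.const_mul _)) ?_
      filter_upwards [hcb i] with x hx
      rw [hid x N]
      refine (norm_add_le _ _).trans (add_le_add le_rfl ?_)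
      rw [norm_mul]
      exact mul_le_mul_of_nonneg_right hx (norm_nonneg _)
    · intro hS
      filter_upwards [ih.2 hS, ht.2 hS] with x hx1 hx2
      have h5 := hx2.add (hx1.const_mul ((μ[f i | flowInv (τ i)]) x))
      rw [mul_zero, add_zero] at h5
      exact h5.congr fun N => (hid x N).symm

end Pool.Agent.U587.DX
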