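import Pool.Agent.U587.DX.Core
import Pool.Agent.U587.ET.Core4
import Pool.Agent.R724.TD.PROD
import Pool.Agent.R506.TDFG
import Pool.Agent.R998.TDAPXG

set_option autoImplicit false

/-!
Approximation in `L¹` at a fixed time at which the averages of single functions converge.
-/

namespace Pool.Agent.U587.DX

open MeasureTheory Filter Finset
open Pool.Agent.Y957.MC (IsFlow flowInv smo)
open Pool.Agent.R497.TD
open Pool.Agent.U587.ET (exists_small prod_diff_c norm_prod_le_one dense_fns gs er gs_meas gs_bd gs_lip er_L1 sub_gs)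
open scoped ENNReal NNReal Topology

universe u

variable {X : Type u} [mX : MeasurableSpace X] {μ : Measure X}

/-- the averages of single bounded functions along `a P(n)` converge almost everywhere -/
def Sg (μ : Measure X) (τ : ℝ → X → X) (P : Polynomial ℝ) (a : ℝ) : Prop :=
  ∀ h : X → ℝ, Measurable h → (∃ C : ℝ, ∀ x, |h x| ≤ C) → ∀ᵐ x ∂μ, ∃ L : ℝ,
    Tendsto (fun N : ℕ => (1 / (N : ℝ)) * ∑ n ∈ Icc 1 N, h (τ (a * P.eval (n : ℝ)) x)) atTop (𝓝 L)

/-- the integral of the limit -/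
lemma lim_int [IsProbabilityMeasure μ] {τ : ℝ → X → X} {P : Polynomial ℝ} {a : ℝ} (hτ : IsFlow μ τ)
    (hS : Sg μ τ P a) {h : X → ℝ} (hm : Measurable h) {C : ℝ} (hb : ∀ x, 0 ≤ h x ∧ h x ≤ C) :
    ∃ H : X → ℝ, Integrable H μ ∧ 0 ≤ᵐ[μ] H ∧ ∫ x, H x ∂μ = ∫ x, h x ∂μ ∧ ∀ᵐ x ∂μ,
      Tendsto (fun N : ℕ => (1 / (N : ℝ)) * ∑ n ∈ Icc 1 N, h (τ (a * P.eval (n : ℝ)) x)) atTop (𝓝 (H x)) := by
  classical
  have habs : ∀ x, |h x| ≤ C := fun x => by rw [abs_of_nonneg (hb x).1]; exact (hb x).2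
  have h1 := hS h hm ⟨C, habs⟩
  obtain ⟨A, hA⟩ : ∃ A : ℕ → X → ℝ, A = fun (N : ℕ) x => (1 / (N : ℝ)) * ∑ n ∈ Icc 1 N, h (τ (a * P.eval (n : ℝ)) x) :=
    ⟨_, rfl⟩
  have hAm : ∀ N, Measurable (A N) := fun N => by
    rw [hA]
    refine measurable_const.mul (Finset.measurable_sum _ fun n _ => ?_)
    exact hm.comp (hτ.mp _).measurable
  have hAb : ∀ N x, 0 ≤ A N x ∧ A N x ≤ C := by
    intro N x
    have hC0 : 0 ≤ C := (hb x).1.trans (hb x).2
    rw [hA]
    simp only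
    constructor
    · exact mul_nonneg (by positivity) (sum_nonneg fun n _ => (hb _).1)
    · rcases Nat.eq_zero_or_pos N with hN | hN
      · rw [hN]; simpa using hC0
      · have hN0 : (0 : ℝ) < N := by exact_mod_cast hN
        rw [one_div, inv_mul_le_iff₀ hN0]
        refine (sum_le_sum fun n _ => (hb _).2).trans ?_
        rw [sum_const, Nat.card_Icc, nsmul_eq_mul]
        simp
  obtain ⟨H, hH⟩ : ∃ H : X → ℝ, H = fun x => if hx : ∃ L : ℝ, Tendsto (fun N => A N x) atTop (𝓝 L) then hx.choose else 0 :=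
    ⟨_, rfl⟩
  have hlim : ∀ᵐ x ∂μ, Tendsto (fun N => A N x) atTop (𝓝 (H x)) := by
    filter_upwards [h1] with x hx
    have hx' : ∃ L : ℝ, Tendsto (fun N => A N x) atTop (𝓝 L) := by rw [hA]; exact hx
    rw [hH]
    simp only
    rw [dif_pos hx']
    exact hx'.choose_spec
  have hHm : AEStronglyMeasurable H μ :=
    (aemeasurable_of_tendsto_metrizable_ae atTop (fun N => (hAm N).aemeasurable) hlim).aestronglyMeasurable
  have hHb : ∀ᵐ x ∂μ, 0 ≤ H x ∧ H x ≤ C := by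
    filter_upwards [hlim] with x hx
    exact ⟨ge_of_tendsto' hx fun N => (hAb N x).1, le_of_tendsto' hx fun N => (hAb N x).2⟩
  refine ⟨H, Integrable.of_bound hHm C ?_, ?_, ?_, ?_⟩
  · filter_upwards [hHb] with x hx
    rw [Real.norm_of_nonneg hx.1]
    exact hx.2
  · filter_upwards [hHb] with x hx using hx.1
  · have h2 : Tendsto (fun N => ∫ x, A N x ∂μ) atTop (𝓝 (∫ x, H x ∂μ)) := by
      refine tendsto_integral_of_dominated_convergence (fun _ => C) (fun N => (hAm N).aestronglyMeasurable)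
        (integrable_const _) (fun N => ae_of_all _ fun x => ?_) hlim
      rw [Real.norm_of_nonneg (hAb N x).1]
      exact (hAb N x).2
    have h3 : ∀ᶠ N : ℕ in atTop, ∫ x, A N x ∂μ = ∫ x, h x ∂μ := by
      filter_upwards [eventually_ge_atTop 1] with N hN
      have hN0 : (0 : ℝ) < N := by exact_mod_cast hN
      rw [hA]
      simp only
      rw [integral_const_mul, integral_finsetSum]
      · have h4 : ∀ n ∈ Icc 1 N, ∫ x, h (τ (a * P.eval (n : ℝ)) x) ∂μ = ∫ x, h x ∂μ := by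
          intro n _
          have h5 := hτ.mp (a * P.eval (n : ℝ))
          rw [← integral_map h5.measurable.aemeasurable (by rw [h5.map_eq]; exact hm.aestronglyMeasurable), h5.map_eq]
        rw [Finset.sum_congr rfl h4, sum_const, Nat.card_Icc, nsmul_eq_mul]
        have : ((N + 1 - 1 : ℕ) : ℝ) = N := by norm_num
        rw [this]
        field_simp
      · intro n _
        refine Integrable.of_bound (C := C) (hm.comp (hτ.mp _).measurable).aestronglyMeasurable (ae_of_all _ fun x => ?_)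
        rw [Real.norm_eq_abs]
        exact habs _
    exact tendsto_nhds_unique h2 ((tendsto_congr' h3).2 tendsto_const_nhds)
  · filter_upwards [hlim] with x hx
    rw [hA] at hx
    exact hx

/-- approximation at a fixed time -/
theorem transfer_at [IsProbabilityMeasure μ] {m : ℕ} {τ : Fin m → ℝ → X → X} {P : Fin m → Polynomial ℝ} {a : ℝ}
    (hτ : ∀ j, IsFlow μ (τ j)) (hS : ∀ j, Sg μ (τ j) (P j) a) (s : Finset (Fin m)) {W : ℕ → X → ℂ}
    (hW : ∀ n x, ‖W n x‖ ≤ 1) {f : Fin m → X → ℂ} (hf : ∀ j, Measurable (f j)) (hf1 : ∀ j x, ‖f j x‖ ≤ 1)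
    {g : ℕ → Fin m → X → ℂ} (hg : ∀ i j, Measurable (g i j)) (hg1 : ∀ i j x, ‖g i j x‖ ≤ 1)
    (hfg : ∀ j, Tendsto (fun i => ∫ x, ‖f j x - g i j x‖ ∂μ) atTop (𝓝 0))
    (h : ∀ i, ∀ᵐ x ∂μ, Tendsto (fun N : ℕ => (1 / (N : ℂ)) * ∑ n ∈ Icc 1 N,
      W n x * ∏ j ∈ s, g i j (τ j (a * (P j).eval (n : ℝ)) x)) atTop (𝓝 0)) :
    ∀ᵐ x ∂μ, Tendsto (fun N : ℕ => (1 / (N : ℂ)) * ∑ n ∈ Icc 1 N,
      W n x * ∏ j ∈ s, f j (τ j (a * (P j).eval (n : ℝ)) x)) atTop (𝓝 0) := by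
  obtain ⟨E, hE⟩ : ∃ E : ℕ → Fin m → X → ℝ, ∀ i j, E i j = fun x => ‖f j x - g i j x‖ := ⟨_, fun i j => rfl⟩
  have hEm : ∀ i j, Measurable (E i j) := fun i j => by rw [hE]; exact ((hf j).sub (hg i j)).norm
  have hEb : ∀ i j x, 0 ≤ E i j x ∧ E i j x ≤ 2 := fun i j x => by
    rw [hE]
    refine ⟨norm_nonneg _, (norm_sub_le _ _).trans ?_⟩
    linarith [hf1 j x, hg1 i j x]
  choose H hHi hH0 hHI hHl using fun i j => lim_int (hτ j) (hS j) (hEm i j) (hEb i j)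
  obtain ⟨Ψ, hΨ⟩ : ∃ Ψ : ℕ → X → ℝ, ∀ i, Ψ i = fun x => ∑ j, H i j x := ⟨_, fun i => rfl⟩
  have hΨ0 : ∀ i, 0 ≤ᵐ[μ] Ψ i := by
    intro i
    filter_upwards [ae_all_iff.2 (hH0 i)] with x hx
    rw [hΨ]
    exact Finset.sum_nonneg fun j _ => hx j
  have hΨi : ∀ i, Integrable (Ψ i) μ := fun i => by
    rw [hΨ]
    exact integrable_finsetSum _ fun j _ => hHi i j
  have hΨlim : Tendsto (fun i => ∫ x, Ψ i x ∂μ) atTop (𝓝 0) := by
    have h1 : ∀ i, ∫ x, Ψ i x ∂μ = ∑ j, ∫ x, ‖f j x - g i j x‖ ∂μ := by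
      intro i
      rw [hΨ]
      simp only
      rw [integral_finsetSum _ fun j _ => hHi i j]
      refine Finset.sum_congr rfl fun j _ => ?_
      rw [hHI, hE]
    simp only [h1]
    have := tendsto_finsetSum (Finset.univ : Finset (Fin m)) fun j _ => hfg j
    simpa using this
  filter_upwards [ae_all_iff.2 h, ae_all_iff.2 fun i => ae_all_iff.2 (hHl i), exists_small hΨ0 hΨi hΨlim]
    with x hx1 hx2 hx3
  rw [Metric.tendsto_nhds]
  intro ε hε
  obtain ⟨k, hk⟩ := exists_nat_one_div_lt hε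
  obtain ⟨i, hi⟩ := hx3 k
  have h1 : Tendsto (fun N : ℕ => ‖(1 / (N : ℂ)) * ∑ n ∈ Icc 1 N,
      W n x * ∏ j ∈ s, g i j (τ j (a * (P j).eval (n : ℝ)) x)‖ +
      ∑ j, (1 / (N : ℝ)) * ∑ n ∈ Icc 1 N, E i j (τ j (a * (P j).eval (n : ℝ)) x)) atTop (𝓝 (0 + Ψ i x)) := by
    rw [hΨ]
    refine Tendsto.add ?_ (tendsto_finsetSum _ fun j _ => hx2 i j)
    have := (hx1 i).norm
    rwa [norm_zero] at this
  have h2 : 0 + Ψ i x < ε := by linarith
  filter_upwards [h1.eventually (gt_mem_nhds h2), eventually_ge_atTop 1] with N hN hN1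
  rw [dist_zero_right]
  refine lt_of_le_of_lt ?_ hN
  have hN0 : (0 : ℝ) < N := by exact_mod_cast hN1
  have e1 : (1 / (N : ℂ)) * ∑ n ∈ Icc 1 N, W n x * ∏ j ∈ s, f j (τ j (a * (P j).eval (n : ℝ)) x) =
      (1 / (N : ℂ)) * ∑ n ∈ Icc 1 N, W n x * ∏ j ∈ s, g i j (τ j (a * (P j).eval (n : ℝ)) x) +
      (1 / (N : ℂ)) * ∑ n ∈ Icc 1 N, W n x * (∏ j ∈ s, f j (τ j (a * (P j).eval (n : ℝ)) x) -
        ∏ j ∈ s, g i j (τ j (a * (P j).eval (n : ℝ)) x)) := by
    rw [← mul_add, ← sum_add_distrib]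
    congr 1
    refine sum_congr rfl fun n _ => ?_
    ring
  rw [e1]
  refine (norm_add_le _ _).trans (add_le_add le_rfl ?_)
  rw [norm_mul, norm_div, norm_one, Complex.norm_natCast, ← Finset.mul_sum, Finset.sum_comm]
  refine mul_le_mul_of_nonneg_left ?_ (by positivity)
  refine (norm_sum_le _ _).trans (sum_le_sum fun n _ => ?_)
  rw [norm_mul]
  have h3 := prod_diff_c s (fun j => f j (τ j (a * (P j).eval (n : ℝ)) x))
    (fun j => g i j (τ j (a * (P j).eval (n : ℝ)) x)) (fun j _ => hf1 j _) (fun j _ => hg1 i j _)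
  calc ‖W n x‖ * ‖∏ j ∈ s, f j (τ j (a * (P j).eval (n : ℝ)) x) -
        ∏ j ∈ s, g i j (τ j (a * (P j).eval (n : ℝ)) x)‖ ≤ 1 * ∑ j ∈ s, ‖f j (τ j (a * (P j).eval (n : ℝ)) x) -
        g i j (τ j (a * (P j).eval (n : ℝ)) x)‖ := mul_le_mul (hW n x) h3 (norm_nonneg _) zero_le_one
    _ = ∑ j ∈ s, E i j (τ j (a * (P j).eval (n : ℝ)) x) := by
        rw [one_mul]
        refine sum_congr rfl fun j _ => ?_
        rw [hE]
    _ ≤ ∑ j, E i j (τ j (a * (P j).eval (n : ℝ)) x) :=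
        sum_le_sum_of_subset_of_nonneg (subset_univ _) fun j _ _ => (hEb i j _).1

/-- approximation at a fixed time, in the mean -/
theorem transfer_L [IsProbabilityMeasure μ] {m : ℕ} {τ : Fin m → ℝ → X → X} {P : Fin m → Polynomial ℝ} {a : ℝ}
    (hτ : ∀ j, IsFlow μ (τ j)) (s : Finset (Fin m)) {W : ℕ → X → ℂ} (hWm : ∀ n, Measurable (W n))
    (hW : ∀ n x, ‖W n x‖ ≤ 1) {f : Fin m → X → ℂ} (hf : ∀ j, Measurable (f j)) (hf1 : ∀ j x, ‖f j x‖ ≤ 1)
    {g : ℕ → Fin m → X → ℂ} (hg : ∀ i j, Measurable (g i j)) (hg1 : ∀ i j x, ‖g i j x‖ ≤ 1)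
    (hfg : ∀ j, Tendsto (fun i => ∫ x, ‖f j x - g i j x‖ ∂μ) atTop (𝓝 0))
    (h : ∀ i, ∀ᵐ x ∂μ, Tendsto (fun N : ℕ => (1 / (N : ℂ)) * ∑ n ∈ Icc 1 N,
      W n x * ∏ j ∈ s, g i j (τ j (a * (P j).eval (n : ℝ)) x)) atTop (𝓝 0)) :
    Tendsto (fun N : ℕ => ∫ x, ‖(1 / (N : ℂ)) * ∑ n ∈ Icc 1 N,
      W n x * ∏ j ∈ s, f j (τ j (a * (P j).eval (n : ℝ)) x)‖ ∂μ) atTop (𝓝 0) := by
  obtain ⟨E, hE⟩ : ∃ E : ℕ → Fin m → X → ℝ, ∀ i j, E i j = fun x => ‖f j x - g i j x‖ := ⟨_, fun i j => rfl⟩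
  have hEm : ∀ i j, Measurable (E i j) := fun i j => by rw [hE]; exact ((hf j).sub (hg i j)).norm
  have hEb : ∀ i j x, 0 ≤ E i j x ∧ E i j x ≤ 2 := fun i j x => by
    rw [hE]
    refine ⟨norm_nonneg _, (norm_sub_le _ _).trans ?_⟩
    linarith [hf1 j x, hg1 i j x]
  -- averages of the approximants
  obtain ⟨A, hA⟩ : ∃ A : (Fin m → X → ℂ) → ℕ → X → ℂ, ∀ u N x, A u N x = (1 / (N : ℂ)) * ∑ n ∈ Icc 1 N,
      W n x * ∏ j ∈ s, u j (τ j (a * (P j).eval (n : ℝ)) x) := ⟨_, fun u N x => rfl⟩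
  have hAm : ∀ u : Fin m → X → ℂ, (∀ j, Measurable (u j)) → ∀ N, Measurable (A u N) := by
    intro u hu N
    have : A u N = fun x => (1 / (N : ℂ)) * ∑ n ∈ Icc 1 N,
      W n x * ∏ j ∈ s, u j (τ j (a * (P j).eval (n : ℝ)) x) := funext (hA u N)
    rw [this]
    refine measurable_const.mul (Finset.measurable_sum _ fun n _ => (hWm n).mul ?_)
    exact Finset.measurable_prod _ fun j _ => (hu j).comp ((hτ j).mp _).measurable
  have hAb : ∀ u : Fin m → X → ℂ, (∀ j x, ‖u j x‖ ≤ 1) → ∀ N x, ‖A u N x‖ ≤ 1 := by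
    intro u hu N x
    rw [hA, norm_mul, norm_div, norm_one, Complex.norm_natCast]
    rcases Nat.eq_zero_or_pos N with hN | hN
    · rw [hN]; simp
    · have hN0 : (0 : ℝ) < N := by exact_mod_cast hN
      rw [one_div, inv_mul_le_iff₀ hN0]
      refine (norm_sum_le _ _).trans ?_
      refine (sum_le_sum (g := fun _ => (1 : ℝ)) fun n _ => ?_).trans (by
        rw [sum_const, Nat.card_Icc, nsmul_eq_mul]; simp)
      rw [norm_mul]
      exact mul_le_one₀ (hW n x) (norm_nonneg _) (norm_prod_le_one _ _ fun j _ => hu j _)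
  have hnice : ∀ i, Tendsto (fun N => ∫ x, ‖A (g i) N x‖ ∂μ) atTop (𝓝 0) := by
    intro i
    have h1 : Tendsto (fun N => ∫ x, ‖A (g i) N x‖ ∂μ) atTop (𝓝 (∫ _x : X, (0 : ℝ) ∂μ)) := by
      refine tendsto_integral_of_dominated_convergence (fun _ => 1)
        (fun N => (hAm _ (hg i) N).norm.aestronglyMeasurable) (integrable_const _) (fun N => ae_of_all _ fun x => ?_) ?_
      · rw [norm_norm]
        exact hAb _ (hg1 i) N x
      · filter_upwards [h i] with x hx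
        have h2 := hx.norm
        rw [norm_zero] at h2
        refine h2.congr fun N => ?_
        rw [hA]
    rwa [integral_zero] at h1
  have hsumlim : Tendsto (fun i => ∑ j, ∫ x, ‖f j x - g i j x‖ ∂μ) atTop (𝓝 0) := by
    have := tendsto_finsetSum (Finset.univ : Finset (Fin m)) fun j _ => hfg j
    simpa using this
  rw [Metric.tendsto_nhds]
  intro ε hε
  obtain ⟨i, hi⟩ := (hsumlim.eventually (gt_mem_nhds (half_pos hε))).exists
  filter_upwards [(hnice i).eventually (gt_mem_nhds (half_pos hε)), eventually_ge_atTop 1] with N hN hN1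
  have hN0 : (0 : ℝ) < N := by exact_mod_cast hN1
  rw [dist_zero_right, Real.norm_of_nonneg (integral_nonneg fun x => norm_nonneg _)]
  have hAi : ∀ u : Fin m → X → ℂ, (∀ j, Measurable (u j)) → (∀ j x, ‖u j x‖ ≤ 1) → Integrable (fun x => ‖A u N x‖) μ := by
    intro u hu hu1
    refine Integrable.of_bound (C := 1) (hAm u hu N).norm.aestronglyMeasurable (ae_of_all _ fun x => ?_)
    rw [norm_norm]
    exact hAb u hu1 N x
  have hEi : ∀ (j : Fin m) (n : ℕ), Integrable (fun x => E i j (τ j (a * (P j).eval (n : ℝ)) x)) μ := by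
    intro j n
    refine Integrable.of_bound (C := 2) ((hEm i j).comp ((hτ j).mp _).measurable).aestronglyMeasurable
      (ae_of_all _ fun x => ?_)
    rw [Real.norm_of_nonneg (hEb i j _).1]
    exact (hEb i j _).2
  have hEI : ∀ (j : Fin m) (n : ℕ), ∫ x, E i j (τ j (a * (P j).eval (n : ℝ)) x) ∂μ = ∫ x, ‖f j x - g i j x‖ ∂μ := by
    intro j n
    have h5 := (hτ j).mp (a * (P j).eval (n : ℝ))
    rw [← integral_map (φ := τ j (a * (P j).eval (n : ℝ))) (f := E i j) h5.measurable.aemeasurable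
      (by rw [h5.map_eq]; exact (hEm i j).aestronglyMeasurable), h5.map_eq, hE]
  have hle : ∫ x, ‖A f N x‖ ∂μ ≤ ∫ x, (‖A (g i) N x‖ + (1 / (N : ℝ)) * ∑ n ∈ Icc 1 N, ∑ j,
      E i j (τ j (a * (P j).eval (n : ℝ)) x)) ∂μ := by
    refine integral_mono_of_nonneg (ae_of_all _ fun x => norm_nonneg _) ((hAi _ (hg i) (hg1 i)).add
      ((integrable_finsetSum _ fun n _ => integrable_finsetSum _ fun j _ => hEi j n).const_mul _))
      (ae_of_all _ fun x => ?_)
    simp only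
    have e1 : A f N x = A (g i) N x + (1 / (N : ℂ)) * ∑ n ∈ Icc 1 N, W n x *
        (∏ j ∈ s, f j (τ j (a * (P j).eval (n : ℝ)) x) - ∏ j ∈ s, g i j (τ j (a * (P j).eval (n : ℝ)) x)) := by
      rw [hA, hA, ← mul_add, ← sum_add_distrib]
      congr 1
      refine sum_congr rfl fun n _ => ?_
      ring
    rw [e1]
    refine (norm_add_le _ _).trans (add_le_add le_rfl ?_)
    rw [norm_mul, norm_div, norm_one, Complex.norm_natCast]
    refine mul_le_mul_of_nonneg_left ?_ (by positivity)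
    refine (norm_sum_le _ _).trans (sum_le_sum fun n _ => ?_)
    rw [norm_mul]
    have h3 := prod_diff_c s (fun j => f j (τ j (a * (P j).eval (n : ℝ)) x))
      (fun j => g i j (τ j (a * (P j).eval (n : ℝ)) x)) (fun j _ => hf1 j _) (fun j _ => hg1 i j _)
    calc ‖W n x‖ * ‖∏ j ∈ s, f j (τ j (a * (P j).eval (n : ℝ)) x) -
          ∏ j ∈ s, g i j (τ j (a * (P j).eval (n : ℝ)) x)‖ ≤ 1 * ∑ j ∈ s, ‖f j (τ j (a * (P j).eval (n : ℝ)) x) -
          g i j (τ j (a * (P j).eval (n : ℝ)) x)‖ := mul_le_mul (hW n x) h3 (norm_nonneg _) zero_le_one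
      _ = ∑ j ∈ s, E i j (τ j (a * (P j).eval (n : ℝ)) x) := by
          rw [one_mul]
          refine sum_congr rfl fun j _ => ?_
          rw [hE]
      _ ≤ ∑ j, E i j (τ j (a * (P j).eval (n : ℝ)) x) :=
          sum_le_sum_of_subset_of_nonneg (subset_univ _) fun j _ _ => (hEb i j _).1
  have hI : ∫ x, (‖A (g i) N x‖ + (1 / (N : ℝ)) * ∑ n ∈ Icc 1 N, ∑ j,
      E i j (τ j (a * (P j).eval (n : ℝ)) x)) ∂μ = ∫ x, ‖A (g i) N x‖ ∂μ + ∑ j, ∫ x, ‖f j x - g i j x‖ ∂μ := by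
    rw [integral_add (hAi _ (hg i) (hg1 i))
      ((integrable_finsetSum _ fun n _ => integrable_finsetSum _ fun j _ => hEi j n).const_mul _), integral_const_mul,
      integral_finsetSum _ fun n _ => integrable_finsetSum _ fun j _ => hEi j n]
    congr 1
    have h4 : ∀ n ∈ Icc 1 N, ∫ x, ∑ j, E i j (τ j (a * (P j).eval (n : ℝ)) x) ∂μ = ∑ j, ∫ x, ‖f j x - g i j x‖ ∂μ := by
      intro n _
      rw [integral_finsetSum _ fun j _ => hEi j n]
      exact sum_congr rfl fun j _ => hEI j n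
    rw [Finset.sum_congr rfl h4, sum_const, Nat.card_Icc, nsmul_eq_mul]
    have : ((N + 1 - 1 : ℕ) : ℝ) = N := by norm_num
    rw [this]
    field_simp
  have hfin : ∫ x, ‖A f N x‖ ∂μ < ε := by
    rw [hI] at hle
    linarith
  refine lt_of_le_of_lt (le_of_eq ?_) hfin
  refine integral_congr_ae (ae_of_all _ fun x => ?_)
  simp only
  rw [hA]

end Pool.Agent.U587.DX
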