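import Pool.Agent.U587.DX.Gen
import Pool.Agent.R497.TD.Main

set_option autoImplicit false

/-!
Two-sided averages, mean square convergence, all integer polynomials at once.
-/

namespace Pool.Agent.U587.DX

open MeasureTheory Filter Finset
open Pool.Agent.Y957.MC (IsFlow flowInv)
open Pool.Agent.R497.TD (two_sided sum_two lim_one)
open scoped ENNReal NNReal Topology

universe u

variable {X : Type u} [mX : MeasurableSpace X] {μ : Measure X}

/-- one term of the averages -/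
noncomputable def term (μ : Measure X) {m : ℕ} (τ : Fin m → ℝ → X → X) (P : Fin m → Polynomial ℝ) (W : ℤ → X → ℂ)
    (f : Fin m → X → ℂ) (a : ℝ) (n : ℤ) (x : X) : ℂ :=
  W n x * (∏ j, f j (τ j (a * (P j).eval (n : ℝ)) x) - ∏ j, (μ[f j | flowInv (τ j)]) x)

lemma term_facts [IsProbabilityMeasure μ] {m : ℕ} {τ : Fin m → ℝ → X → X} (hτ : ∀ j, IsFlow μ (τ j))
    (P : Fin m → Polynomial ℝ) {W : ℤ → X → ℂ} (hWm : ∀ n, AEStronglyMeasurable (W n) μ)
    (hWb : ∃ C : ℝ, ∀ n, ∀ᵐ x ∂μ, ‖W n x‖ ≤ C) {f : Fin m → X → ℂ} (hf : ∀ j, AEStronglyMeasurable (f j) μ)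
    (hfb : ∀ j, ∃ C : ℝ, ∀ᵐ x ∂μ, ‖f j x‖ ≤ C) (a : ℝ) : ∃ K : ℝ, 0 ≤ K ∧
      (∀ n, AEStronglyMeasurable (term μ τ P W f a n) μ) ∧ ∀ᵐ x ∂μ, ∀ n, ‖term μ τ P W f a n x‖ ≤ K := by
  choose C hC using hfb
  obtain ⟨CW, hCW⟩ := hWb
  have hcb : ∀ j, ∀ᵐ x ∂μ, ‖(μ[f j | flowInv (τ j)]) x‖ ≤ |C j| := by
    intro j
    have h1 := ae_bdd_norm_condExp_of_ae_bdd_norm (m := flowInv (τ j)) (μ := μ) (f := f j) (R := |C j|) (by
      filter_upwards [hC j] with x hx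
      exact hx.trans (le_abs_self _))
    exact h1
  have hfo : ∀ᵐ x ∂μ, ∀ (j : Fin m) (n : ℤ), ‖f j (τ j (a * (P j).eval (n : ℝ)) x)‖ ≤ |C j| := by
    rw [ae_all_iff]
    intro j
    rw [ae_all_iff]
    intro n
    filter_upwards [((hτ j).mp _).quasiMeasurePreserving.ae (hC j)] with x hx
    exact hx.trans (le_abs_self _)
  have hK0 : 0 ≤ ∏ j, |C j| := prod_nonneg fun j _ => abs_nonneg _
  have hprodb : ∀ (u : Fin m → ℂ), (∀ j, ‖u j‖ ≤ |C j|) → ‖∏ j, u j‖ ≤ ∏ j, |C j| := by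
    intro u hu
    rw [norm_prod]
    exact Finset.prod_le_prod (fun j _ => norm_nonneg _) fun j _ => hu j
  refine ⟨|CW| * (∏ j, |C j| + ∏ j, |C j|), mul_nonneg (abs_nonneg _) (add_nonneg hK0 hK0), fun n => ?_, ?_⟩
  · refine (hWm n).mul (AEStronglyMeasurable.sub ?_ ?_)
    · have h2 : (fun x => ∏ j, f j (τ j (a * (P j).eval (n : ℝ)) x)) =
          ∏ j, fun x => f j (τ j (a * (P j).eval (n : ℝ)) x) := by
        funext x
        rw [Finset.prod_apply]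
      rw [h2]
      exact Finset.aestronglyMeasurable_prod _ fun j _ => (hf j).comp_measurePreserving ((hτ j).mp _)
    · have h2 : (fun x => ∏ j, (μ[f j | flowInv (τ j)]) x) = ∏ j, (μ[f j | flowInv (τ j)]) := by
        funext x
        rw [Finset.prod_apply]
      rw [h2]
      exact Finset.aestronglyMeasurable_prod _ fun j _ => integrable_condExp.aestronglyMeasurable
  · filter_upwards [ae_all_iff.2 hCW, hfo, ae_all_iff.2 hcb] with x hx1 hx2 hx3 n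
    unfold term
    rw [norm_mul]
    exact mul_le_mul ((hx1 n).trans (le_abs_self _)) ((norm_sub_le _ _).trans
      (add_le_add (hprodb _ fun j => hx2 j n) (hprodb _ fun j => hx3 j))) (norm_nonneg _) (abs_nonneg _)

lemma sum_meas {ι : Type*} (s : Finset ι) {φ : ι → X → ℂ} (h : ∀ i, AEStronglyMeasurable (φ i) μ) (c : ℂ) :
    AEStronglyMeasurable (fun x => c * ∑ i ∈ s, φ i x) μ := by
  refine AEStronglyMeasurable.const_mul ?_ _
  have h1 : (fun x => ∑ i ∈ s, φ i x) = ∑ i ∈ s, φ i := by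
    funext x
    rw [Finset.sum_apply]
  rw [h1]
  exact Finset.aestronglyMeasurable_sum _ fun i _ => h i

lemma avg_le (c : ℕ → ℂ) (K : ℝ) (N : ℕ) (hK : 0 ≤ K) (hc : ∀ n, ‖c n‖ ≤ K) :
    ‖(1 / (N : ℂ)) * ∑ n ∈ Icc 1 N, c n‖ ≤ K := by
  rw [norm_mul, norm_div, norm_one, Complex.norm_natCast]
  rcases Nat.eq_zero_or_pos N with hN | hN
  · rw [hN]; simpa using hK
  · have hN0 : (0 : ℝ) < N := by exact_mod_cast hN
    rw [one_div, inv_mul_le_iff₀ hN0]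
    refine (norm_sum_le _ _).trans ?_
    refine (sum_le_sum (g := fun _ => K) fun n _ => hc n).trans (by
      rw [sum_const, Nat.card_Icc, nsmul_eq_mul]; simp)

/-- the two-sided average -/
lemma two_le (φ : ℤ → ℂ) (N : ℕ) : ‖(1 / (2 * (N : ℂ) + 1)) * ∑ n ∈ Icc (-(N : ℤ)) N, φ n‖ ≤
    ‖φ 0‖ * (1 / ((N : ℝ) + 1)) + ‖(1 / (N : ℂ)) * ∑ n ∈ Icc 1 N, φ (n : ℤ)‖ +
      ‖(1 / (N : ℂ)) * ∑ n ∈ Icc 1 N, φ (-(n : ℤ))‖ := by
  have hN1 : (0 : ℝ) < (N : ℝ) + 1 := by positivity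
  have h2 : ‖(1 / (2 * (N : ℂ) + 1))‖ = 1 / (2 * (N : ℝ) + 1) := by
    rw [show (2 * (N : ℂ) + 1) = ((2 * (N : ℝ) + 1 : ℝ) : ℂ) by push_cast; ring, norm_div, norm_one,
      Complex.norm_real, Real.norm_of_nonneg (by positivity)]
  have h3 : ∀ ψ : ℕ → ℂ, (1 / (2 * (N : ℝ) + 1)) * ‖∑ n ∈ Icc 1 N, ψ n‖ ≤ ‖(1 / (N : ℂ)) * ∑ n ∈ Icc 1 N, ψ n‖ := by
    intro ψ
    rw [norm_mul, norm_div, norm_one, Complex.norm_natCast]
    rcases Nat.eq_zero_or_pos N with hN | hN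
    · rw [hN]; simp
    · have hN0 : (0 : ℝ) < N := by exact_mod_cast hN
      refine mul_le_mul_of_nonneg_right ?_ (norm_nonneg _)
      exact one_div_le_one_div_of_le hN0 (by linarith)
  rw [sum_two, mul_add, mul_add]
  refine (norm_add_le _ _).trans (add_le_add ((norm_add_le _ _).trans (add_le_add ?_ ?_)) ?_)
  · rw [norm_mul, h2, mul_comm]
    refine mul_le_mul_of_nonneg_left ?_ (norm_nonneg _)
    exact one_div_le_one_div_of_le hN1 (by have : (0 : ℝ) ≤ N := Nat.cast_nonneg _; linarith)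
  · rw [norm_mul, h2]
    exact h3 _
  · rw [norm_mul, h2]
    exact h3 _

/-- two-sided averages with weights -/
theorem two_gen [IsProbabilityMeasure μ] [IsSeparable μ] {m : ℕ} {τ : Fin m → ℝ → X → X} (hτ : ∀ j, IsFlow μ (τ j))
    {P : Fin m → Polynomial ℝ} (hP : ∀ j, 0 < (P j).natDegree) {d : ℕ} (hd : ∀ j, (P j).natDegree ≤ d)
    (hinj : Function.Injective fun j => (P j).natDegree) {W : ℤ → X → ℂ} (hWm : ∀ n, AEStronglyMeasurable (W n) μ)
    (hWb : ∃ C : ℝ, ∀ n, ∀ᵐ x ∂μ, ‖W n x‖ ≤ C) :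
    ∃ D : Set ℝ, dimH D ≤ dm d ∧ ∀ a, a ∉ D → ∀ f : Fin m → X → ℂ,
      (∀ j, AEStronglyMeasurable (f j) μ) → (∀ j, ∃ C : ℝ, ∀ᵐ x ∂μ, ‖f j x‖ ≤ C) →
      Tendsto (fun N : ℕ => ∫ x, ‖(1 / (2 * (N : ℂ) + 1)) * ∑ n ∈ Icc (-(N : ℤ)) N, term μ τ P W f a n x‖ ^ 2 ∂μ)
        atTop (𝓝 0) ∧
      ((∀ j, Sg μ (τ j) (P j) a) → (∀ j, Sg μ (τ j) ((P j).comp (-Polynomial.X)) a) → ∀ᵐ x ∂μ,
        Tendsto (fun N : ℕ => (1 / (2 * (N : ℂ) + 1)) * ∑ n ∈ Icc (-(N : ℤ)) N, term μ τ P W f a n x)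
          atTop (𝓝 0)) := by
  have hdeg : ∀ j, ((P j).comp (-Polynomial.X)).natDegree = (P j).natDegree := fun j => by
    rw [Polynomial.natDegree_comp, Polynomial.natDegree_neg, Polynomial.natDegree_X, mul_one]
  have hWb' := hWb
  obtain ⟨C, hC⟩ := hWb
  obtain ⟨D1, hD1, h1⟩ := prod_gen hτ hP hd (W := fun n => W (n : ℤ)) (fun n => hWm _) ⟨C, fun n => hC _⟩ hinj
  obtain ⟨D2, hD2, h2⟩ := prod_gen hτ (P := fun j => (P j).comp (-Polynomial.X)) (fun j => by rw [hdeg]; exact hP j)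
    (fun j => by rw [hdeg]; exact hd j) (W := fun n => W (-(n : ℤ))) (fun n => hWm _) ⟨C, fun n => hC _⟩
    (fun i j hij => hinj (by simpa only [hdeg] using hij))
  refine ⟨D1 ∪ D2, ?_, fun a ha f hf hfb => ?_⟩
  · rw [dimH_union]
    exact max_le hD1 hD2
  rw [Set.mem_union, not_or] at ha
  obtain ⟨g1, g2⟩ := h1 a ha.1 f hf hfb
  obtain ⟨g3, g4⟩ := h2 a ha.2 f hf hfb
  have e1 : ∀ (n : ℕ) (x : X), W (n : ℤ) x * (∏ j, f j (τ j (a * (P j).eval (n : ℝ)) x) -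
      ∏ j, (μ[f j | flowInv (τ j)]) x) = term μ τ P W f a (n : ℤ) x := by
    intro n x
    unfold term
    push_cast
    rfl
  have e2 : ∀ (n : ℕ) (x : X), W (-(n : ℤ)) x * (∏ j, f j (τ j (a * ((P j).comp (-Polynomial.X)).eval (n : ℝ)) x) -
      ∏ j, (μ[f j | flowInv (τ j)]) x) = term μ τ P W f a (-(n : ℤ)) x := by
    intro n x
    unfold term
    simp only [Polynomial.eval_comp, Polynomial.eval_neg, Polynomial.eval_X]
    push_cast
    rfl
  simp only [e1] at g1 g2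
  simp only [e2] at g3 g4
  obtain ⟨K, hK0, hKm, hKb⟩ := term_facts (μ := μ) hτ P hWm hWb' hf hfb a
  refine ⟨?_, fun hS1 hS2 => ?_⟩
  · have hi : ∀ (ψ : ℕ → ℤ) (N : ℕ), Integrable (fun x => ‖(1 / (N : ℂ)) * ∑ n ∈ Icc 1 N,
        term μ τ P W f a (ψ n) x‖) μ := by
      intro ψ N
      refine Integrable.of_bound (C := K) (sum_meas _ (fun n => hKm (ψ n)) _).norm ?_
      filter_upwards [hKb] with x hx
      rw [norm_norm]
      exact avg_le _ K N hK0 fun n => hx _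
    have hlim : Tendsto (fun N : ℕ => K * (1 / ((N : ℝ) + 1)) + ∫ x, ‖(1 / (N : ℂ)) * ∑ n ∈ Icc 1 N,
        term μ τ P W f a (n : ℤ) x‖ ∂μ + ∫ x, ‖(1 / (N : ℂ)) * ∑ n ∈ Icc 1 N,
        term μ τ P W f a (-(n : ℤ)) x‖ ∂μ) atTop (𝓝 0) := by
      have h5 := (((tendsto_one_div_add_atTop_nhds_zero_nat (𝕜 := ℝ)).const_mul K).add g1).add g3
      simpa using h5
    have hlim2 := hlim.const_mul (K + K + K)
    rw [mul_zero] at hlim2
    refine squeeze_zero (fun N => integral_nonneg fun x => by positivity) (fun N => ?_) hlim2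
    have hN1 : (0 : ℝ) < (N : ℝ) + 1 := by positivity
    have hN2 : 1 / ((N : ℝ) + 1) ≤ 1 := by
      rw [div_le_one hN1]
      have : (0 : ℝ) ≤ N := Nat.cast_nonneg _
      linarith
    have h6 : ∫ x, ‖(1 / (2 * (N : ℂ) + 1)) * ∑ n ∈ Icc (-(N : ℤ)) N, term μ τ P W f a n x‖ ^ 2 ∂μ ≤
        ∫ x, (K + K + K) * (K * (1 / ((N : ℝ) + 1)) + ‖(1 / (N : ℂ)) * ∑ n ∈ Icc 1 N,
        term μ τ P W f a (n : ℤ) x‖ + ‖(1 / (N : ℂ)) * ∑ n ∈ Icc 1 N, term μ τ P W f a (-(n : ℤ)) x‖) ∂μ := by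
      refine integral_mono_of_nonneg (ae_of_all _ fun x => by positivity)
        ((((integrable_const _).add (hi (fun n => (n : ℤ)) N)).add (hi (fun n => -(n : ℤ)) N)).const_mul _) ?_
      filter_upwards [hKb] with x hx
      have h7 := two_le (fun n => term μ τ P W f a n x) N
      have h8 := avg_le (fun n : ℕ => term μ τ P W f a (n : ℤ) x) K N hK0 fun n => hx _
      have h9 := avg_le (fun n : ℕ => term μ τ P W f a (-(n : ℤ)) x) K N hK0 fun n => hx _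
      have h10 : ‖term μ τ P W f a 0 x‖ * (1 / ((N : ℝ) + 1)) ≤ K * (1 / ((N : ℝ) + 1)) :=
        mul_le_mul_of_nonneg_right (hx 0) (by positivity)
      have h11 : K * (1 / ((N : ℝ) + 1)) ≤ K := mul_le_of_le_one_right hK0 hN2
      rw [sq]
      exact mul_le_mul (by linarith) (by linarith) (norm_nonneg _) (by linarith)
    refine h6.trans (le_of_eq ?_)
    rw [integral_const_mul]
    congr 1
    have h12 := integral_add ((integrable_const (K * (1 / ((N : ℝ) + 1)))).add (hi (fun n => (n : ℤ)) N))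
      (hi (fun n => -(n : ℤ)) N)
    have h13 := integral_add (integrable_const (μ := μ) (K * (1 / ((N : ℝ) + 1)))) (hi (fun n => (n : ℤ)) N)
    simp only [Pi.add_apply] at h12
    rw [h12, h13]
    simp
  · filter_upwards [g2 hS1, g4 hS2] with x hx1 hx2
    exact two_sided hx1 hx2

end Pool.Agent.U587.DX
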